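import Pool.Agent.Zk3.DH.RM

set_option autoImplicit false

/-!
# Large values of Dirichlet polynomials over rough numbers
-/

open Complex MeasureTheory

namespace Pool.Agent.Zk3.DH

open Pool.Agent.Zk1.DH (rough DD)

lemma mem_rough {X A B : ℝ} {r : ℕ} (hA : 0 ≤ A) (h : r ∈ rough X A B) :
    1 ≤ r ∧ r ≤ ⌊B⌋₊ ∧ A < (r : ℝ) ∧ ∀ p ∈ r.primeFactors, X < (p : ℝ) := by
  unfold rough at h
  obtain ⟨h1, h2⟩ := Finset.mem_filter.1 h
  obtain ⟨h3, h4⟩ := Finset.mem_Ioc.1 h1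
  exact ⟨by omega, h4, (Nat.floor_lt hA).1 h3, h2⟩

lemma norm_rpow_term (r : ℕ) (hr : 1 ≤ r) (s : ℂ) : ‖(r : ℂ) ^ (-s)‖ = (r : ℝ) ^ (-s.re) := by
  rw [Complex.norm_natCast_cpow_of_pos (by omega)]
  simp

lemma exp_one_le_eight : Real.exp 1 ≤ 8 := by
  exact (Real.exp_one_lt_d9.trans (by norm_num)).le

theorem sMD0 : Pool.Agent.Zk1.DH.S_MD0 := by
  intro a0 ha0
  refine ⟨Real.exp (14 / a0), 8, Real.exp_pos _, by norm_num, ?_⟩
  intro T a b z hT ha hb hz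
  have hT0 : 0 < T := by linarith
  have hTe : Real.exp 1 ≤ T := exp_one_le_eight.trans hT
  have hTb : T ^ b ≤ T := by
    nth_rw 2 [← Real.rpow_one T]
    exact Real.rpow_le_rpow_of_exponent_le (by linarith) hb
  have hfl : ((⌊T ^ b⌋₊ : ℕ) : ℝ) ≤ T := (Nat.floor_le (by positivity)).trans hTb
  have hS : ∀ r ∈ rough (T ^ a0) (T ^ a) (T ^ b), 1 ≤ r ∧ r ≤ ⌊T ^ b⌋₊ ∧
      ∀ p ∈ r.primeFactors, T ^ a0 < (p : ℝ) := by
    intro r hr
    obtain ⟨h1, h2, _, h4⟩ := mem_rough (by positivity) hr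
    exact ⟨h1, h2, h4⟩
  have h1 := rough_sum a0 T ha0 hTe ⌊T ^ b⌋₊ hfl _ hS
  refine le_trans ?_ h1
  unfold DD
  refine (norm_sum_le _ _).trans (Finset.sum_le_sum fun r hr => ?_)
  have hr1 := (hS r hr).1
  rw [norm_rpow_term r hr1, ← Real.rpow_neg_one]
  apply Real.rpow_le_rpow_of_exponent_le (by exact_mod_cast hr1)
  rw [Complex.add_re]
  have : ((1 / 2 : ℂ)).re = 1 / 2 := by norm_num
  rw [this]
  linarith

/-- the normalised polynomial -/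
noncomputable def fD (X T a b : ℝ) (z : ℂ) : ℂ :=
  DD X (T ^ a) (T ^ b) (1 / 2 + z) * cexp (a * z * Real.log T)

lemma norm_fD (X T a b : ℝ) (z : ℂ) :
    ‖fD X T a b z‖ = ‖DD X (T ^ a) (T ^ b) (1 / 2 + z)‖ * Real.exp (a * z.re * Real.log T) := by
  unfold fD
  rw [norm_mul, Complex.norm_exp]
  congr 2
  simp [Complex.mul_re]

lemma diff_DD (X A B : ℝ) (hA : 0 ≤ A) (z : ℂ) :
    DifferentiableAt ℂ (fun z => DD X A B (1 / 2 + z)) z := by
  unfold DD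
  apply DifferentiableAt.fun_sum
  intro r hr
  have hr1 := (mem_rough hA hr).1
  have hr0 : (r : ℂ) ≠ 0 := by
    have : r ≠ 0 := by omega
    exact_mod_cast this
  apply DifferentiableAt.const_cpow (by fun_prop) (Or.inl hr0)

lemma diff_fD (X T a b : ℝ) (hT : 0 ≤ T) (z : ℂ) : DifferentiableAt ℂ (fD X T a b) z := by
  unfold fD
  apply DifferentiableAt.mul (diff_DD X (T ^ a) (T ^ b) (by positivity) z)
  fun_prop

lemma fD_line (X T a b u y : ℝ) (hT : 0 < T) :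
    ‖fD X T a b (u + y * I)‖ = ‖∑ r ∈ rough X (T ^ a) (T ^ b),
      (((r : ℝ) ^ (-(1 / 2 + u)) * Real.exp (a * u * Real.log T) : ℝ) : ℂ) *
        (r : ℂ) ^ (-(y : ℂ) * I)‖ := by
  rw [norm_fD]
  have hre : (((u : ℂ) + y * I)).re = u := by simp
  rw [hre]
  have h1 : ∑ r ∈ rough X (T ^ a) (T ^ b),
      (((r : ℝ) ^ (-(1 / 2 + u)) * Real.exp (a * u * Real.log T) : ℝ) : ℂ) *
        (r : ℂ) ^ (-(y : ℂ) * I) =
      ((Real.exp (a * u * Real.log T) : ℝ) : ℂ) * DD X (T ^ a) (T ^ b) (1 / 2 + (u + y * I)) := by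
    unfold DD
    rw [Finset.mul_sum]
    refine Finset.sum_congr rfl fun r hr => ?_
    have hr1 := (mem_rough (by positivity) hr).1
    have hr0 : (r : ℂ) ≠ 0 := by
      have : r ≠ 0 := by omega
      exact_mod_cast this
    have h2 : (((r : ℝ) ^ (-(1 / 2 + u)) : ℝ) : ℂ) = (r : ℂ) ^ (((-(1 / 2 + u) : ℝ)) : ℂ) := by
      rw [Complex.ofReal_cpow (Nat.cast_nonneg r)]
      norm_num
    rw [Complex.ofReal_mul, h2, mul_comm (((r : ℂ) ^ (((-(1 / 2 + u) : ℝ)) : ℂ))), mul_assoc,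
      ← Complex.cpow_add _ _ hr0]
    congr 2
    push_cast
    ring
  rw [h1, norm_mul, Complex.norm_real, Real.norm_eq_abs, abs_of_pos (Real.exp_pos _), mul_comm]

lemma coef_sq (T a u : ℝ) (r : ℕ) (hT : 0 < T) (hu : 0 ≤ u) (hr : 1 ≤ r) (hrA : T ^ a < (r : ℝ)) :
    ‖(((r : ℝ) ^ (-(1 / 2 + u)) * Real.exp (a * u * Real.log T) : ℝ) : ℂ)‖ ^ 2 ≤ (r : ℝ)⁻¹ := by
  have hr0 : (0 : ℝ) < r := by exact_mod_cast hr
  rw [Complex.norm_real, Real.norm_eq_abs, sq_abs]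
  have h1 : Real.exp (a * u * Real.log T) ≤ (r : ℝ) ^ u := by
    have : Real.exp (a * u * Real.log T) = (T ^ a) ^ u := by
      rw [Real.rpow_def_of_pos hT, ← Real.exp_mul]
      congr 1
      ring
    rw [this]
    exact Real.rpow_le_rpow (by positivity) hrA.le hu
  have h2 : (r : ℝ) ^ (-(1 / 2 + u)) * Real.exp (a * u * Real.log T) ≤ (r : ℝ) ^ (-(1 / 2) : ℝ) := by
    calc (r : ℝ) ^ (-(1 / 2 + u)) * Real.exp (a * u * Real.log T)
        ≤ (r : ℝ) ^ (-(1 / 2 + u)) * (r : ℝ) ^ u :=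
          mul_le_mul_of_nonneg_left h1 (by positivity)
      _ = (r : ℝ) ^ (-(1 / 2) : ℝ) := by
          rw [← Real.rpow_add hr0]
          congr 1
          ring
  have h3 := pow_le_pow_left₀ (by positivity) h2 2
  refine h3.trans (le_of_eq ?_)
  rw [← Real.rpow_natCast, ← Real.rpow_mul hr0.le, ← Real.rpow_neg_one]
  norm_num

/-- Moments of the normalised polynomial on vertical lines. -/
lemma fD_moment (a0 : ℝ) (k : ℕ) (ha0 : 0 < a0) (hk : 1 ≤ k) (T a b u : ℝ) (hT : 8 ≤ T)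
    (_ha : a0 ≤ a) (hb : k * b ≤ 1) (hu : 0 ≤ u) :
    ∫ y in (T / 4)..(4 * T), ‖fD (T ^ a0) T a b (u + y * I)‖ ^ (2 * k) ≤
      300 * ((2 : ℝ) ^ (1 / a0)) ^ k * (Real.exp (14 / a0)) ^ k * T := by
  have hT0 : 0 < T := by linarith
  have hTe : Real.exp 1 ≤ T := exp_one_le_eight.trans hT
  have hkR : (1 : ℝ) ≤ k := by exact_mod_cast hk
  have hb1 : b ≤ 1 := by
    rcases le_or_gt b 0 with h | h
    · linarith
    · nlinarith
  set S := rough (T ^ a0) (T ^ a) (T ^ b) with hSdef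
  set A : ℕ := max ⌊T ^ b⌋₊ 1 with hA
  have hTb : T ^ b ≤ T := by
    nth_rw 2 [← Real.rpow_one T]
    exact Real.rpow_le_rpow_of_exponent_le (by linarith) hb1
  have hAT : (A : ℝ) ^ k ≤ T := by
    rcases le_total ⌊T ^ b⌋₊ 1 with h | h
    · rw [hA, max_eq_right h]
      simp
      linarith
    · rw [hA, max_eq_left h]
      have h1 : ((⌊T ^ b⌋₊ : ℕ) : ℝ) ≤ T ^ b := Nat.floor_le (by positivity)
      refine (pow_le_pow_left₀ (by positivity) h1 k).trans ?_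
      rw [← Real.rpow_natCast, ← Real.rpow_mul hT0.le]
      nth_rw 2 [← Real.rpow_one T]
      apply Real.rpow_le_rpow_of_exponent_le (by linarith)
      linarith
  have hS : ∀ r ∈ S, 1 ≤ r ∧ r ≤ A ∧ ∀ p ∈ r.primeFactors, T ^ a0 < (p : ℝ) := by
    intro r hr
    obtain ⟨h1, h2, _, h4⟩ := mem_rough (by positivity) hr
    exact ⟨h1, h2.trans (le_max_left _ _), h4⟩
  have hAT' : (A : ℝ) ≤ T := by
    have h1 : (1 : ℝ) ≤ A := by
      rw [hA]; exact_mod_cast le_max_right _ _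
    calc (A : ℝ) = (A : ℝ) ^ 1 := (pow_one _).symm
      _ ≤ (A : ℝ) ^ k := pow_le_pow_right₀ h1 hk
      _ ≤ T := hAT
  have hsum := rough_sum a0 T ha0 hTe A hAT' S hS
  have hD : (1 : ℝ) ≤ (2 : ℝ) ^ (1 / a0) := Real.one_le_rpow (by norm_num) (by positivity)
  have hm := rough_moment
    (fun r : ℕ => (((r : ℝ) ^ (-(1 / 2 + u)) * Real.exp (a * u * Real.log T) : ℝ) : ℂ))
    S (T ^ a0) ((2 : ℝ) ^ (1 / a0)) A k hD (le_max_right _ _) hS
    (by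
      intro n hn hnA hnp
      apply card_div_le a0 T ha0 (by linarith) n hn _ hnp
      refine le_trans ?_ hAT
      exact_mod_cast hnA) (T / 4) (4 * T) (by linarith)
  have e1 : ∫ y in (T / 4)..(4 * T), ‖fD (T ^ a0) T a b (u + y * I)‖ ^ (2 * k) =
      ∫ t in (T / 4)..(4 * T), ‖∑ r ∈ S,
        (((r : ℝ) ^ (-(1 / 2 + u)) * Real.exp (a * u * Real.log T) : ℝ) : ℂ) *
          (r : ℂ) ^ (-(t : ℂ) * I)‖ ^ (2 * k) := by
    apply intervalIntegral.integral_congr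
    intro y _
    simp only
    rw [fD_line _ _ _ _ _ _ hT0]
  rw [e1]
  refine hm.trans ?_
  have hc : ∑ r ∈ S, ‖(((r : ℝ) ^ (-(1 / 2 + u)) * Real.exp (a * u * Real.log T) : ℝ) : ℂ)‖ ^ 2 ≤
      Real.exp (14 / a0) := by
    refine le_trans (Finset.sum_le_sum fun r hr => ?_) hsum
    obtain ⟨h1, h2, h3, h4⟩ := mem_rough (by positivity) hr
    exact coef_sq T a u r hT0 hu h1 h3
  have hc0 : 0 ≤ ∑ r ∈ S, ‖(((r : ℝ) ^ (-(1 / 2 + u)) * Real.exp (a * u * Real.log T) : ℝ) : ℂ)‖ ^ 2 :=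
    Finset.sum_nonneg fun _ _ => by positivity
  have hck := pow_le_pow_left₀ hc0 hc k
  have h60 : 60 * (4 * T - T / 4 + (A : ℝ) ^ k) ≤ 300 * T := by linarith
  calc 60 * (4 * T - T / 4 + (A : ℝ) ^ k) * (((2 : ℝ) ^ (1 / a0)) ^ k *
        (∑ r ∈ S, ‖(((r : ℝ) ^ (-(1 / 2 + u)) * Real.exp (a * u * Real.log T) : ℝ) : ℂ)‖ ^ 2) ^ k)
      ≤ 300 * T * (((2 : ℝ) ^ (1 / a0)) ^ k * (Real.exp (14 / a0)) ^ k) := by
        apply mul_le_mul h60 _ (by positivity) (by positivity)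
        exact mul_le_mul_of_nonneg_left hck (by positivity)
    _ = _ := by ring

theorem sMD : Pool.Agent.Zk1.DH.S_MD := by
  intro a0 Y k ha0 hY hk
  obtain ⟨C, hC, hmx⟩ := mx_gen (1 / 2) Y (by norm_num) le_rfl hY
  refine ⟨C * (300 * ((2 : ℝ) ^ (1 / a0)) ^ k * (Real.exp (14 / a0)) ^ k), 8, by positivity,
    by norm_num, ?_⟩
  intro T a b x W v hT ha hb hx hxW hWT hv
  have hT0 : 0 < T := by linarith
  have h1 := hmx k T x W (300 * ((2 : ℝ) ^ (1 / a0)) ^ k * (Real.exp (14 / a0)) ^ k * T) v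
    (fD (T ^ a0) T a b) hx hxW hWT (by positivity) hv
    (fun z _ => diff_fD _ _ _ _ hT0.le z)
    (fun u hu1 _ => fD_moment a0 k ha0 hk T a b u hT ha hb (by nlinarith))
  have hset : {t : ℝ | T / 2 ≤ t ∧ t ≤ 3 * T ∧ ∃ z : ℂ, x ≤ z.re ∧ z.re ≤ Y * x ∧ |z.im - t| ≤ W ∧
      v * Real.exp (-(a * z.re * Real.log T)) < ‖DD (T ^ a0) (T ^ a) (T ^ b) (1 / 2 + z)‖} ⊆
      {t : ℝ | T / 2 ≤ t ∧ t ≤ 3 * T ∧ ∃ z : ℂ, x ≤ z.re ∧ z.re ≤ Y * x ∧ |z.im - t| ≤ W ∧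
        v < ‖fD (T ^ a0) T a b z‖} := by
    rintro t ⟨ht1, ht2, z, hz1, hz2, hz3, hz4⟩
    refine ⟨ht1, ht2, z, hz1, hz2, hz3, ?_⟩
    rw [norm_fD]
    have h2 := mul_lt_mul_of_pos_right hz4 (Real.exp_pos (a * z.re * Real.log T))
    rwa [mul_assoc, ← Real.exp_add, neg_add_cancel, Real.exp_zero, mul_one] at h2
  refine (measure_mono hset).trans (h1.trans (le_of_eq ?_))
  congr 1
  ring

end Pool.Agent.Zk3.DH
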