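import Pool.Agent.Zk69.DH.Near
import Pool.Agent.Zk2.DH.Rough
import Pool.Agent.H24R2.DZ.Strip
import Pool.Agent.H24R2.DZ.XB

set_option autoImplicit false

/-!
The measure of the heights with bad zeros, for `n` of the order of `log T`.
-/

namespace Pool.Agent.Zk3.DH

open Complex Filter Topology MeasureTheory Set
open Pool.Agent.H24R2.JP (XX HH Om)
open Pool.Agent.H24R2.DZ (bad ra)
open Pool.Agent.Zk1.DH
open Pool.Agent.Zk69.DH

/-- The bounds for zeta in terms of the Euler product, far to the right. -/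
lemma zp_far {κ1 ρ2 δ T t r : ℝ} {n K0 : ℕ} (hκ1 : 0 < κ1) (hT : 2 ≤ T) (hK0 : 3 ≤ K0)
    (hρ : 3 / (4 * κ1) ≤ ρ2) (hn : κ1 * Real.log T ≤ n) (hr : 2 * κ1 ≤ r)
    (hrL : r * Real.log T = 2 * n) (hδ : 0 < δ) (w : ℂ) (hw : ρ2 ≤ w.re) :
    ‖riemannZeta (1 / 2 + (I * t + r * w))‖ ≤
        Real.exp 2 * ‖PP (T ^ (1 / K0 : ℝ)) (1 / 2 + (I * t + r * w))‖ ∧
      ‖riemannZeta (1 / 2 + (I * t + r * w)) - PP (T ^ (1 / K0 : ℝ)) (1 / 2 + (I * t + r * w)) *
        (1 + DD (T ^ (1 / K0 : ℝ)) (T ^ (1 / K0 : ℝ)) (T ^ (1 / 2 : ℝ)) (1 / 2 + (I * t + r * w)))‖ ≤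
      ‖PP (T ^ (1 / K0 : ℝ)) (1 / 2 + (I * t + r * w))‖ * Real.exp (2 + 4 * n + 2 * ρ2 * n) *
        (w.re / ρ2) ^ 0 * Real.exp (-((1 - 4 * δ) * n * w.re)) := by
  have hK0' : (3 : ℝ) ≤ K0 := by exact_mod_cast hK0
  have hT1 : 1 ≤ T := by linarith
  have hT0 : 0 < T := by linarith
  have hL : 0 < Real.log T := Real.log_pos (by linarith)
  have hn0 : (0 : ℝ) ≤ n := Nat.cast_nonneg n
  have hρ0 : 0 < ρ2 := lt_of_lt_of_le (by positivity) hρ
  have hr0 : 0 < r := by linarith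
  have hw0 : 0 < w.re := lt_of_lt_of_le hρ0 hw
  set X : ℝ := T ^ (1 / K0 : ℝ) with hX
  set s : ℂ := 1 / 2 + (I * t + r * w) with hs
  have hsre : s.re = 1 / 2 + r * w.re := hp_re t r w
  have hrw : 3 / 2 ≤ r * w.re := by
    have h1 : 2 * κ1 * (3 / (4 * κ1)) ≤ r * w.re := by
      apply mul_le_mul hr (hρ.trans hw) (by positivity) hr0.le
    have h2 : 2 * κ1 * (3 / (4 * κ1)) = 3 / 2 := by
      field_simp
      ring
    linarith
  have hs2 : 2 ≤ s.re := by rw [hsre]; linarith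
  have hX1 : 1 ≤ X := Real.one_le_rpow hT1 (by positivity)
  have hXB : X ≤ T ^ (1 / 2 : ℝ) := by
    apply Real.rpow_le_rpow_of_exponent_le hT1
    apply one_div_le_one_div_of_le (by norm_num)
    linarith
  have hP : PP X s ≠ 0 := Pool.Agent.Zk69.DH.PP_ne X (by linarith)
  have hPn : 0 < ‖PP X s‖ := norm_pos_iff.mpr hP
  constructor
  · have h1 := Pool.Agent.Zk2.DH.rough_one X hX1 s hs2
    have h2 : X ^ (-(s.re - 2)) ≤ 1 := by
      apply Real.rpow_le_one_of_one_le_of_nonpos hX1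
      linarith
    have h3 : ‖riemannZeta s / PP X s‖ ≤ 3 := by
      calc ‖riemannZeta s / PP X s‖ = ‖(riemannZeta s / PP X s - 1) + 1‖ := by ring_nf
        _ ≤ ‖riemannZeta s / PP X s - 1‖ + ‖(1 : ℂ)‖ := norm_add_le _ _
        _ ≤ 2 * X ^ (-(s.re - 2)) + 1 := by rw [norm_one]; linarith
        _ ≤ 3 := by linarith
    rw [norm_div, div_le_iff₀ hPn] at h3
    refine h3.trans (mul_le_mul_of_nonneg_right ?_ hPn.le)
    have := Real.add_one_le_exp (2 : ℝ)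
    linarith
  · have h1 := Pool.Agent.Zk2.DH.rough_tail X (T ^ (1 / 2 : ℝ)) hX1 hXB s hs2
    have h2 : riemannZeta s - PP X s * (1 + DD X X (T ^ (1 / 2 : ℝ)) s) =
        PP X s * (riemannZeta s / PP X s - 1 - DD X X (T ^ (1 / 2 : ℝ)) s) := by
      field_simp
      ring
    rw [h2, norm_mul, pow_zero, mul_one, mul_assoc]
    refine mul_le_mul_of_nonneg_left (h1.trans ?_) (norm_nonneg _)
    have h3 : (T ^ (1 / 2 : ℝ)) ^ (-(s.re - 2)) = Real.exp (3 / 4 * Real.log T - n * w.re) := by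
      rw [← Real.rpow_mul hT0.le, Real.rpow_def_of_pos hT0, hsre]
      congr 1
      have : (n : ℝ) = r * Real.log T / 2 := by rw [hrL]; ring
      rw [this]
      ring
    rw [h3]
    have h4 : (2 : ℝ) ≤ Real.exp 1 := by
      have := Real.add_one_le_exp (1 : ℝ)
      linarith
    calc 2 * Real.exp (3 / 4 * Real.log T - n * w.re)
        ≤ Real.exp 1 * Real.exp (3 / 4 * Real.log T - n * w.re) :=
          mul_le_mul_of_nonneg_right h4 (Real.exp_pos _).le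
      _ = Real.exp (1 + (3 / 4 * Real.log T - n * w.re)) := by rw [Real.exp_add]
      _ ≤ Real.exp (2 + 4 * n + 2 * ρ2 * n + (-((1 - 4 * δ) * n * w.re))) := by
          apply Real.exp_le_exp.mpr
          have h5 : 3 / 4 * Real.log T ≤ 2 * ρ2 * n := by
            have h6 : 3 / (4 * κ1) * (κ1 * Real.log T) ≤ ρ2 * n :=
              mul_le_mul hρ hn (by positivity) hρ0.le
            have h7 : 3 / (4 * κ1) * (κ1 * Real.log T) = 3 / 4 * Real.log T := by
              field_simp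
            nlinarith
          have h8 : 0 ≤ 4 * δ * (n * w.re) := by positivity
          nlinarith
      _ = _ := by rw [Real.exp_add]

/-- Growth near the line, when `r` is bounded below. -/
lemma ng_far {κ1 M Kx Tx T t r Kp a : ℝ} {n : ℕ} (hκ1 : 0 < κ1) (hT : 2 ≤ T)
    (hxb : ∀ (t : ℝ) (u : ℂ), Tx ≤ t → ‖u‖ ≤ M →
      ‖XX (I * t + u)‖ ≤ Real.exp (Kx * Real.log t) * ‖HH (I * t)‖ ∧
      (10 ≤ u.re → XX (I * t + u) ≠ 0 ∧
        Real.exp (-(Kx * Real.log t)) * ‖HH (I * t)‖ ≤ ‖XX (I * t + u)‖ ∧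
        ‖logDeriv XX (I * t + u) - ((Real.log t / 2 : ℝ) : ℂ)‖ ≤ Kx))
    (ht1 : Tx ≤ t) (ht2 : t ≤ T ^ 2) (ht3 : 1 ≤ t) (hn : κ1 * Real.log T ≤ n)
    (hKp : 10 ≤ r * Kp) (hM1 : r * Kp ≤ M) (hM2 : |r * a| ≤ M) :
    ‖XX (I * t + (r * a : ℝ))‖ ≤
      ‖XX (I * (t : ℂ) + (r * Kp : ℝ))‖ * Real.exp (4 * max Kx 0 / κ1 * n) := by
  have h1 := (hxb t ((r * a : ℝ) : ℂ) ht1 (by rw [Complex.norm_real, Real.norm_eq_abs]; exact hM2)).1
  have h2 := ((hxb t ((r * Kp : ℝ) : ℂ) ht1 (by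
    rw [Complex.norm_real, Real.norm_eq_abs, abs_of_nonneg (by linarith)]; exact hM1)).2
    (by rw [Complex.ofReal_re]; exact hKp)).2.1
  have hL : 0 < Real.log T := Real.log_pos (by linarith)
  have hlt : 0 ≤ Real.log t := Real.log_nonneg ht3
  have hlt2 : Real.log t ≤ 2 * Real.log T := by
    have := Real.log_le_log (by linarith) ht2
    rwa [Real.log_pow] at this
  have hK : Kx * Real.log t ≤ max Kx 0 * Real.log t :=
    mul_le_mul_of_nonneg_right (le_max_left _ _) hlt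
  have hK2 : max Kx 0 * Real.log t ≤ 2 * max Kx 0 / κ1 * n := by
    have h3 : max Kx 0 * Real.log t ≤ max Kx 0 * (2 * Real.log T) :=
      mul_le_mul_of_nonneg_left hlt2 (le_max_right _ _)
    refine h3.trans ?_
    have h4 : 2 * max Kx 0 / κ1 * (κ1 * Real.log T) ≤ 2 * max Kx 0 / κ1 * n :=
      mul_le_mul_of_nonneg_left hn (by positivity)
    refine le_trans (le_of_eq ?_) h4
    field_simp
  have h5 : ‖HH (I * t)‖ ≤ Real.exp (Kx * Real.log t) * ‖XX (I * (t : ℂ) + (r * Kp : ℝ))‖ := by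
    have h6 := mul_le_mul_of_nonneg_left h2 (Real.exp_pos (Kx * Real.log t)).le
    rwa [← mul_assoc, ← Real.exp_add, add_neg_cancel, Real.exp_zero, one_mul] at h6
  calc ‖XX (I * t + (r * a : ℝ))‖ ≤ Real.exp (Kx * Real.log t) * ‖HH (I * t)‖ := h1
    _ ≤ Real.exp (Kx * Real.log t) *
        (Real.exp (Kx * Real.log t) * ‖XX (I * (t : ℂ) + (r * Kp : ℝ))‖) :=
        mul_le_mul_of_nonneg_left h5 (Real.exp_pos _).le
    _ = ‖XX (I * (t : ℂ) + (r * Kp : ℝ))‖ * Real.exp (Kx * Real.log t + Kx * Real.log t) := by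
        rw [Real.exp_add]; ring
    _ ≤ _ := by
        refine mul_le_mul_of_nonneg_left (Real.exp_le_exp.mpr ?_) (norm_nonneg _)
        have h7 : 4 * max Kx 0 / κ1 * (n : ℝ) = 2 * max Kx 0 / κ1 * n + 2 * max Kx 0 / κ1 * n := by
          ring
        rw [h7]
        linarith

theorem sLM2 (hMP : S_MP) (hMD : S_MD) (hLOC : S_LOC) : S_LM2 := by
  intro κt κ1 hκt0 hκt hκ1
  -- constants
  obtain ⟨ε, hε0, hε1, hε2⟩ : ∃ ε : ℝ, 0 < ε ∧ ε ≤ 1 / 2 ∧ κt ≤ 4 * (1 - ε) * (1 - ε) := by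
    refine ⟨min (1 / 2) ((4 - κt) / 8), lt_min (by norm_num) (by linarith), min_le_left _ _, ?_⟩
    have h1 := min_le_right (1 / 2 : ℝ) ((4 - κt) / 8)
    nlinarith [sq_nonneg (min (1 / 2 : ℝ) ((4 - κt) / 8))]
  obtain ⟨κ, hκ0, hκε, hκ4, h1⟩ := hLOC ε hε0 hε1
  have hκtκ : κt ≤ 4 * (1 - ε) * (1 - κ) := by
    refine hε2.trans ?_
    have : 0 ≤ 4 * (1 - ε) := by linarith
    exact mul_le_mul_of_nonneg_left (by linarith) this
  set R : ℝ := max 1 (1 / (4 * κ1)) with hRdef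
  have hR1 : 1 ≤ R := le_max_left _ _
  set ρ2 : ℝ := max 1 (3 / (4 * κ1)) with hρ2def
  have hρ21 : 1 ≤ ρ2 := le_max_left _ _
  set Kp : ℝ := max ρ2 (5 / κ1) with hKpdef
  have hKp1 : ρ2 ≤ Kp := le_max_left _ _
  set M : ℝ := 2 * (R + 2 + ρ2 + Kp) with hMdef
  obtain ⟨Kx, Tx, hTx, hxb⟩ := Pool.Agent.H24R2.DZ.xb M
  set C5 : ℝ := 4 * max Kx 0 / κ1 with hC5def
  have hC5 : 0 ≤ C5 := by
    have : 0 ≤ max Kx 0 := le_max_right _ _
    positivity
  set B : ℝ := C5 + Kp + 2 * ρ2 + 10 with hBdef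
  obtain ⟨ρ0, hρ0, h2⟩ := h1 R B hR1 (by linarith)
  set ρ : ℝ := max ρ0 Kp with hρdef
  have hρ0ρ : ρ0 ≤ ρ := le_max_left _ _
  have hKpρ : Kp ≤ ρ := le_max_right _ _
  set C3 : ℝ := C5 + Kp + 1 with hC3def
  obtain ⟨Y, hY, h3⟩ := h2 ρ hρ0ρ C3 (by linarith)
  obtain ⟨a1, ha1, h4⟩ := h3 Y le_rfl
  obtain ⟨K0, hK0⟩ := exists_nat_ge (3 + 1 / a1 + 40 * (ρ + R + Y + 3) + 8 / ε)
  have hρR : 0 < ρ + R + Y + 3 := by linarith
  have hK0a : (3 : ℝ) ≤ K0 := by
    have e1 : 0 < 1 / a1 := by positivity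
    have e2 : 0 < 8 / ε := by positivity
    linarith
  have hK0n : 3 ≤ K0 := by exact_mod_cast hK0a
  have hK0p : (0 : ℝ) < K0 := by linarith
  have hK0b : 1 / (K0 : ℝ) ≤ a1 := by
    rw [div_le_iff₀ hK0p]
    have e1 : 1 / a1 ≤ K0 := by
      have e2 : 0 < 8 / ε := by positivity
      linarith
    rw [div_le_iff₀ ha1] at e1
    linarith
  have hK0c : 8 / (K0 : ℝ) ≤ ε := by
    rw [div_le_iff₀ hK0p]
    have e1 : 8 / ε ≤ K0 := by
      have e2 : 0 < 1 / a1 := by positivity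
      linarith
    rw [div_le_iff₀ hε0] at e1
    linarith
  have hηQ : 40 / (K0 : ℝ) * (ρ + R + Y + 3) ≤ 1 := by
    have e1 : 0 < 1 / a1 := by positivity
    have e2 : 0 < 8 / ε := by positivity
    rw [div_mul_eq_mul_div, div_le_iff₀ hK0p]
    linarith
  obtain ⟨n0, h5⟩ := h4 K0 (40 / K0) hK0n hK0b (by positivity) le_rfl
  obtain ⟨C, T1, n1, hC, hT1, hnear⟩ := near hMP hMD (κt := κt) (ε := ε) (κ := κ) (ρ := ρ) (R := R)
    (Y := Y) (K0 := K0) hκtκ hε1 hκ0 hκ4 (by linarith) hR1 hY hK0n hK0c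
  obtain ⟨T2, hT2, hHHok⟩ := HH_ok (η := 40 / (K0 : ℝ)) (M := ρ + R + Y + 3) (by positivity)
    (by linarith)
  set δ : ℝ := 1 / (4 * (ρ + R + 1)) with hδdef
  have hδ0 : 0 < δ := by positivity
  have hδQ : 4 * δ * (ρ + R + 1) ≤ 1 := by
    rw [hδdef]
    apply le_of_eq
    have : ρ + R + 1 ≠ 0 := by linarith
    field_simp
  set Ns : ℝ := n0 + n1 + 2 + K0 with hNs
  set T0 : ℝ := max (max T1 T2) (max (max (2 * Tx + 8 * (Y + 1)) 16) (Real.exp (Ns / κ1))) with hT0def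
  have hT01 : T1 ≤ T0 := (le_max_left _ _).trans (le_max_left _ _)
  have hT02 : T2 ≤ T0 := (le_max_right _ _).trans (le_max_left _ _)
  have hT03 : 2 * Tx + 8 * (Y + 1) ≤ T0 :=
    (le_max_left _ _).trans ((le_max_left _ _).trans (le_max_right _ _))
  have hT04 : 16 ≤ T0 := (le_max_right _ _).trans ((le_max_left _ _).trans (le_max_right _ _))
  have hT05 : Real.exp (Ns / κ1) ≤ T0 := (le_max_right _ _).trans (le_max_right _ _)
  refine ⟨C, T0, hC, by linarith, ?_⟩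
  intro T n hT hn1 hn2
  have hTpos : 0 < T := by linarith
  have hT2' : 2 ≤ T := by linarith
  have hL : 0 < Real.log T := Real.log_pos (by linarith)
  have hnNs : Ns ≤ n := by
    refine le_trans ?_ hn1
    have e1 : Ns / κ1 ≤ Real.log T := by
      rw [Real.le_log_iff_exp_le hTpos]
      exact hT05.trans hT
    rw [div_le_iff₀ hκ1] at e1
    linarith
  have hnn0 : n0 ≤ n := by
    have : (n0 : ℝ) ≤ n := by
      have e1 : (0 : ℝ) ≤ n1 := Nat.cast_nonneg _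
      linarith
    exact_mod_cast this
  have hnn1 : n1 ≤ n := by
    have : (n1 : ℝ) ≤ n := by
      have e1 : (0 : ℝ) ≤ n0 := Nat.cast_nonneg _
      linarith
    exact_mod_cast this
  have hn2R : (2 : ℝ) ≤ n := by
    have e1 : (0 : ℝ) ≤ n1 := Nat.cast_nonneg _
    have e2 : (0 : ℝ) ≤ n0 := Nat.cast_nonneg _
    linarith
  have hnK0 : (K0 : ℝ) ≤ n := by
    have e1 : (0 : ℝ) ≤ n1 := Nat.cast_nonneg _
    have e2 : (0 : ℝ) ≤ n0 := Nat.cast_nonneg _
    linarith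
  have hn1' : 1 ≤ n := by
    have : (1 : ℝ) ≤ n := by linarith
    exact_mod_cast this
  have hr := ra_pos hT2' hn1'
  have hrL := ra_L n hT2'
  have hr2 : ra T n ≤ 2 * 1 := ra_le hT2' (by linarith)
  have hr1 : 2 * κ1 ≤ ra T n := by
    unfold ra
    rw [le_div_iff₀ (by positivity)]
    linarith
  refine le_trans (measure_mono ?_) (hnear T n (hT01.trans hT) hnn1 (by linarith))
  rintro t ⟨ht1, ht2, s, hs, hs2⟩
  refine ⟨ht1, ht2, ?_⟩
  rintro ⟨hPP, hD⟩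
  set r := ra T n with hrdef
  have him : ∀ y : ℝ, |y| ≤ Y + 1 → 2 * (Y + 1) ≤ T / 4 ∧ |r * y| ≤ 2 * (Y + 1) := by
    intro y hy
    constructor
    · linarith
    · rw [abs_mul, abs_of_pos hr]
      have e1 : r * |y| ≤ 2 * (Y + 1) := mul_le_mul (by linarith) hy (abs_nonneg _) (by norm_num)
      exact e1
  have hLH := det (κ := κ) (ε := ε) (η := 40 / (K0 : ℝ)) (B := B) (C3 := C3) (R := R) (ρ := ρ)
    (Y := Y) (ρ2 := ρ2) (K := Kp) (C5 := C5) (C2 := 2) (δ := δ) (L := Real.log T) (K0 := K0) (q := 0)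
    (n := n) (X := T ^ (1 / K0 : ℝ)) (T := T) (t := t) (r := r)
    rfl (by linarith) hK0n hn1' hε0.le (by linarith) hκ0 hκ4 hR1 hY hρ21 hKp1 hKpρ hC5 hr hrL
    (by positivity) hηQ
    (by
      intro y hy
      obtain ⟨e1, e2⟩ := him y hy
      have e3 := (abs_le.mp e2).1
      linarith)
    hδ0 hδQ
    (by
      intro w hw1 hw2 hw3
      apply hHHok T t n (hT02.trans hT) hn1' hn2 ht1 ht2 w
      refine (Complex.norm_le_abs_re_add_abs_im w).trans ?_
      rw [abs_of_pos (by linarith)]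
      linarith)
    hPP hD
    (by
      intro w hw1 hw2 hw3
      exact zp_far hκ1 hT2' hK0n (le_max_right _ _) hn1 hr1 hrL hδ0 w hw1)
    (by
      intro w hw1 hw2
      obtain ⟨e1, e2⟩ := him w.im hw2
      have e3 := abs_le.mp e2
      have e4 : (I * t + r * w : ℂ) = I * ((t + r * w.im : ℝ) : ℂ) + ((r * w.re : ℝ) : ℂ) := by
        apply Complex.ext <;> simp
      rw [e4]
      have e5 : max (R + 2) ρ2 ≤ R + 2 + ρ2 := max_le (by linarith) (by linarith)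
      have e6 : |w.re| ≤ R + 2 + ρ2 := hw1.trans e5
      apply ng_far (Tx := Tx) (Kx := Kx) (M := M) (T := T) hκ1 hT2' hxb
      · linarith
      · have e10 : 16 * T ≤ T * T := mul_le_mul_of_nonneg_right (by linarith) hTpos.le
        rw [pow_two]
        linarith
      · linarith
      · exact hn1
      · have e7 : 2 * κ1 * (5 / κ1) ≤ r * Kp :=
          mul_le_mul hr1 (le_max_right _ _) (by positivity) hr.le
        have e8 : 2 * κ1 * (5 / κ1) = 10 := by field_simp; ring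
        linarith
      · have e9 : r * Kp ≤ 2 * Kp := mul_le_mul_of_nonneg_right (by linarith) (by linarith)
        rw [hMdef]
        linarith
      · rw [abs_mul, abs_of_pos hr, hMdef]
        have e9 : r * |w.re| ≤ 2 * (R + 2 + ρ2) :=
          mul_le_mul (by linarith) e6 (abs_nonneg _) (by norm_num)
        linarith)
    hn2R
    (by
      have e1 := Real.add_one_le_exp (n : ℝ)
      linarith)
    (by
      rw [pow_zero]
      exact Real.one_le_exp (by linarith))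
    le_rfl le_rfl
  have hloc := h5 n (FX t r) (F0 (T ^ (1 / K0 : ℝ)) t r) (Dk (T ^ (1 / K0 : ℝ)) T t r) hnn0 hLH
  refine no_bad hr hloc s hs hs2 ?_
  have e1 := Pool.Agent.H24R2.DZ.strip n s hs.1
  refine e1.trans ?_
  have e2 : 1 / (4 * κ1) * (2 * κ1) ≤ R * r :=
    mul_le_mul (le_max_right _ _) hr1 (by positivity) (by linarith)
  have e3 : 1 / (4 * κ1) * (2 * κ1) = 1 / 2 := by
    field_simp
    ring
  linarith

end Pool.Agent.Zk3.DH
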