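import Pool.Agent.Zk1.DH.Spec
import Pool.Agent.W261.SD.SSq

set_option autoImplicit false

/-!
Maximal function of an analytic function from its moments on vertical lines.
-/

namespace Pool.Agent.Zk3.DH

open Complex MeasureTheory Set Filter Topology

/-- Fubini for a continuous function of two variables on shifted intervals. -/
theorem fub3 (h : ℝ → ℝ → ℝ) (hc : Continuous (fun p : ℝ × ℝ => h p.1 p.2)) (h0 : ∀ u y, 0 ≤ h u y)
    (a b V T1 T2 S1 S2 M : ℝ) (hab : a ≤ b) (hV : 0 ≤ V) (hT : T1 ≤ T2) (hS1 : S1 ≤ T1 - V)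
    (hS2 : T2 + V ≤ S2) (_hM : 0 ≤ M)
    (hm : ∀ u, a ≤ u → u ≤ b → ∫ s in S1..S2, h u s ≤ M) :
    ∫ t in T1..T2, ∫ u in a..b, ∫ y in (-V)..V, h u (t + y) ≤ (b - a) * (2 * V) * M := by
  have hc1 : Continuous (fun p : ℝ × ℝ => ∫ y in (-V)..V, h p.2 (p.1 + y)) := by
    apply intervalIntegral.continuous_parametric_intervalIntegral_of_continuous'
    exact hc.comp (by fun_prop : Continuous fun q : (ℝ × ℝ) × ℝ => (q.1.2, q.1.1 + q.2))
  have e1 : ∫ t in T1..T2, ∫ u in a..b, ∫ y in (-V)..V, h u (t + y)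
      = ∫ u in a..b, ∫ t in T1..T2, ∫ y in (-V)..V, h u (t + y) := by
    apply intervalIntegral_intervalIntegral_swap (F := fun t u => ∫ y in (-V)..V, h u (t + y))
    have : IntegrableOn (Function.uncurry fun t u => ∫ y in (-V)..V, h u (t + y))
        (uIcc T1 T2 ×ˢ uIcc a b) := by
      apply ContinuousOn.integrableOn_compact (isCompact_uIcc.prod isCompact_uIcc)
      exact hc1.continuousOn
    exact this.mono_set (Set.prod_mono uIoc_subset_uIcc uIoc_subset_uIcc)
  rw [e1]
  have e2 : ∀ u, a ≤ u → u ≤ b → ∫ t in T1..T2, ∫ y in (-V)..V, h u (t + y) ≤ 2 * V * M := by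
    intro u hu1 hu2
    have hcu : Continuous (fun p : ℝ × ℝ => h u (p.1 + p.2)) :=
      hc.comp (by fun_prop : Continuous fun q : ℝ × ℝ => (u, q.1 + q.2))
    have e3 : ∫ t in T1..T2, ∫ y in (-V)..V, h u (t + y)
        = ∫ y in (-V)..V, ∫ t in T1..T2, h u (t + y) := by
      apply intervalIntegral_intervalIntegral_swap (F := fun t y => h u (t + y))
      have : IntegrableOn (Function.uncurry fun t y => h u (t + y))
          (uIcc T1 T2 ×ˢ uIcc (-V) V) := by
        apply ContinuousOn.integrableOn_compact (isCompact_uIcc.prod isCompact_uIcc)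
        exact hcu.continuousOn
      exact this.mono_set (Set.prod_mono uIoc_subset_uIcc uIoc_subset_uIcc)
    rw [e3]
    have e4 : ∀ y ∈ Icc (-V) V, ∫ t in T1..T2, h u (t + y) ≤ M := by
      intro y hy
      have hcs : Continuous (fun s => h u s) :=
        hc.comp (by fun_prop : Continuous fun q : ℝ => (u, q))
      rw [intervalIntegral.integral_comp_add_right (fun s => h u s)]
      refine le_trans ?_ (hm u hu1 hu2)
      apply intervalIntegral.integral_mono_interval
      · linarith [hy.1]
      · linarith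
      · linarith [hy.2]
      · exact Filter.Eventually.of_forall (fun s => h0 u s)
      · exact hcs.intervalIntegrable _ _
    have e5 : ∫ y in (-V)..V, ∫ t in T1..T2, h u (t + y) ≤ ∫ _y in (-V)..V, M := by
      apply intervalIntegral.integral_mono_on (by linarith)
      · apply Continuous.intervalIntegrable
        apply intervalIntegral.continuous_parametric_intervalIntegral_of_continuous'
        exact hcu.comp (by fun_prop : Continuous fun q : ℝ × ℝ => (q.2, q.1))
      · exact continuous_const.intervalIntegrable _ _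
      · exact e4
    refine e5.trans (le_of_eq ?_)
    rw [intervalIntegral.integral_const, smul_eq_mul]
    ring
  have e6 : ∫ u in a..b, ∫ t in T1..T2, ∫ y in (-V)..V, h u (t + y) ≤ ∫ _u in a..b, 2 * V * M := by
    apply intervalIntegral.integral_mono_on hab
    · apply Continuous.intervalIntegrable
      apply intervalIntegral.continuous_parametric_intervalIntegral_of_continuous'
      exact hc1.comp (by fun_prop : Continuous fun q : ℝ × ℝ => (q.2, q.1))
    · exact continuous_const.intervalIntegrable _ _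
    · intro u hu
      exact e2 u hu.1 hu.2
  refine e6.trans (le_of_eq ?_)
  rw [intervalIntegral.integral_const, smul_eq_mul]
  ring

/-- Maximal function on a general range of real parts. -/
theorem mx_gen (δ Y : ℝ) (hδ : 0 < δ) (hδ1 : δ ≤ 1 / 2) (hY : 1 ≤ Y) : ∃ C : ℝ, 0 < C ∧
    ∀ (k : ℕ) (T x W M v : ℝ) (f : ℂ → ℂ), 0 < x → x ≤ W → W ≤ T / 8 →
    0 ≤ M → 0 < v → (∀ z : ℂ, 0 < z.re → DifferentiableAt ℂ f z) →
    (∀ u : ℝ, (1 - δ) * x ≤ u → u ≤ (Y + δ) * x →
      ∫ y in (T / 4)..(4 * T), ‖f (u + y * I)‖ ^ (2 * k) ≤ M) →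
    volume {t : ℝ | T / 2 ≤ t ∧ t ≤ 3 * T ∧ ∃ z : ℂ, x ≤ z.re ∧ z.re ≤ Y * x ∧ |z.im - t| ≤ W ∧ v < ‖f z‖} ≤
      ENNReal.ofReal (C * (W / x) * M * (v ^ (2 * k))⁻¹) := by
  obtain ⟨C0, hC0, hss⟩ := Pool.Agent.W261.SD.ssq
  refine ⟨16 * C0 * (Y + 1) / δ ^ 2, by positivity, ?_⟩
  intro k T x W M v f hx hxW hWT hM hv hf hmom
  have hW : 0 < W := lt_of_lt_of_le hx hxW
  have hT : 0 < T := by linarith
  set ρ : ℝ := δ * x / 2 with hρ
  have hρ0 : 0 < ρ := by positivity
  have hρx : ρ ≤ x / 4 := by
    rw [hρ]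
    nlinarith
  set V : ℝ := 2 * W with hV
  set a : ℝ := (1 - δ) * x with ha
  set b : ℝ := (Y + δ) * x with hb
  have hax : x / 2 ≤ a := by
    rw [ha]; nlinarith
  have haρ : a ≤ x - ρ := by
    rw [ha, hρ]; nlinarith
  have hbρ : Y * x + ρ ≤ b := by
    rw [hb, hρ]; nlinarith
  have hab : a ≤ b := by
    rw [ha, hb]; nlinarith
  set h : ℝ → ℝ → ℝ := fun u y => ‖f ((max u (x / 4) : ℝ) + y * I)‖ ^ (2 * k) with hh
  have hre : ∀ u y : ℝ, 0 < (((max u (x / 4) : ℝ) : ℂ) + y * I).re := by
    intro u y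
    simp only [add_re, ofReal_re, mul_re, I_re, mul_zero, ofReal_im, I_im, mul_one, sub_self,
      add_zero]
    exact lt_of_lt_of_le (by positivity) (le_max_right _ _)
  have hc : Continuous (fun p : ℝ × ℝ => h p.1 p.2) := by
    rw [continuous_iff_continuousAt]
    intro p
    have h1 : ContinuousAt (fun p : ℝ × ℝ => (((max p.1 (x / 4) : ℝ) : ℂ) + p.2 * I)) p := by
      apply Continuous.continuousAt
      fun_prop
    have h2 : ContinuousAt f (((max p.1 (x / 4) : ℝ) : ℂ) + p.2 * I) :=
      (hf _ (hre p.1 p.2)).continuousAt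
    have h3 : ContinuousAt (fun p : ℝ × ℝ => f (((max p.1 (x / 4) : ℝ) : ℂ) + p.2 * I)) p :=
      ContinuousAt.comp (g := f) (f := fun p : ℝ × ℝ => (((max p.1 (x / 4) : ℝ) : ℂ) + p.2 * I))
        h2 h1
    exact (h3.norm).pow (2 * k)
  have h0 : ∀ u y, 0 ≤ h u y := fun u y => by rw [hh]; positivity
  have hheq : ∀ u, x / 4 ≤ u → ∀ y, h u y = ‖f (u + y * I)‖ ^ (2 * k) := by
    intro u hu y
    simp only [hh]
    rw [max_eq_left hu]
  have hm : ∀ u, a ≤ u → u ≤ b → ∫ s in (T / 4)..(4 * T), h u s ≤ M := by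
    intro u hu1 hu2
    have : ∫ s in (T / 4)..(4 * T), h u s
        = ∫ s in (T / 4)..(4 * T), ‖f (u + s * I)‖ ^ (2 * k) := by
      apply intervalIntegral.integral_congr
      intro s _
      exact hheq u (by linarith) s
    rw [this]
    exact hmom u hu1 hu2
  set G : ℝ → ℝ := fun t => ∫ u in a..b, ∫ y in (-V)..V, h u (t + y) with hG
  have hfub : ∫ t in (T / 2)..(3 * T), G t ≤ (b - a) * (2 * V) * M :=
    fub3 h hc h0 a b V (T / 2) (3 * T) (T / 4) (4 * T) M hab (by positivity) (by linarith)
      (by rw [hV]; linarith) (by rw [hV]; linarith) hM hm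
  have hGc : Continuous G := by
    apply intervalIntegral.continuous_parametric_intervalIntegral_of_continuous'
    apply intervalIntegral.continuous_parametric_intervalIntegral_of_continuous'
    exact hc.comp (by fun_prop : Continuous fun q : (ℝ × ℝ) × ℝ => (q.1.2, q.1.1 + q.2))
  have hG0 : ∀ t, 0 ≤ G t := by
    intro t
    apply intervalIntegral.integral_nonneg hab
    intro u _
    apply intervalIntegral.integral_nonneg (by linarith)
    intro y _
    exact h0 _ _
  set c : ℝ := v ^ (2 * k) * ρ ^ 2 / C0 with hcdef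
  have hc0 : 0 < c := by positivity
  have hsub : {t : ℝ | T / 2 ≤ t ∧ t ≤ 3 * T ∧ ∃ z : ℂ, x ≤ z.re ∧ z.re ≤ Y * x ∧ |z.im - t| ≤ W ∧
      v < ‖f z‖} ⊆ Icc (T / 2) (3 * T) ∩ {t | c ≤ G t} := by
    rintro t ⟨ht1, ht2, z, hz1, hz2, hz3, hz4⟩
    refine ⟨⟨ht1, ht2⟩, ?_⟩
    rw [Set.mem_ofPred_eq]
    have hz3' := abs_le.mp hz3
    have s1 := hss (fun w => f w ^ k) z.re z.im ρ hρ0 (by
      intro w hw1 hw2
      have := (abs_le.mp hw1).1
      exact (hf w (by linarith)).pow k)
    rw [Complex.re_add_im] at s1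
    have s2 : v ^ (2 * k) ≤ ‖f z ^ k‖ ^ 2 := by
      rw [norm_pow, ← pow_mul, mul_comm k 2]
      exact pow_le_pow_left₀ hv.le hz4.le _
    have s3 : ∫ u in (z.re - ρ)..(z.re + ρ), ∫ y in (z.im - ρ)..(z.im + ρ),
        ‖f (u + y * I) ^ k‖ ^ 2 ≤ G t := by
      have s4 : ∫ u in (z.re - ρ)..(z.re + ρ), ∫ y in (z.im - ρ)..(z.im + ρ),
        ‖f (u + y * I) ^ k‖ ^ 2 = ∫ u in (z.re - ρ)..(z.re + ρ), ∫ y in (z.im - ρ)..(z.im + ρ),
          h u y := by
        apply intervalIntegral.integral_congr
        intro u hu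
        rw [uIcc_of_le (by linarith)] at hu
        apply intervalIntegral.integral_congr
        intro y _
        change ‖f (u + y * I) ^ k‖ ^ 2 = h u y
        rw [hheq u (by linarith [hu.1]) y, norm_pow, ← pow_mul, mul_comm k 2]
      rw [s4]
      have hci : ∀ A B : ℝ, Continuous (fun u => ∫ y in A..B, h u y) := by
        intro A B
        apply intervalIntegral.continuous_parametric_intervalIntegral_of_continuous'
        exact hc
      have s5 : ∫ u in (z.re - ρ)..(z.re + ρ), ∫ y in (z.im - ρ)..(z.im + ρ), h u y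
          ≤ ∫ u in (z.re - ρ)..(z.re + ρ), ∫ y in (t - V)..(t + V), h u y := by
        apply intervalIntegral.integral_mono_on (by linarith)
        · exact (hci _ _).intervalIntegrable _ _
        · exact (hci _ _).intervalIntegrable _ _
        · intro u _
          apply intervalIntegral.integral_mono_interval
          · rw [hV]; linarith [hz3'.1]
          · linarith
          · rw [hV]; linarith [hz3'.2]
          · exact Filter.Eventually.of_forall (fun s => h0 u s)
          · exact (hc.comp (by fun_prop : Continuous fun q : ℝ => (u, q))).intervalIntegrable _ _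
      have s6 : ∫ u in (z.re - ρ)..(z.re + ρ), ∫ y in (t - V)..(t + V), h u y
          ≤ ∫ u in a..b, ∫ y in (t - V)..(t + V), h u y := by
        apply intervalIntegral.integral_mono_interval
        · linarith
        · linarith
        · linarith
        · apply Filter.Eventually.of_forall
          intro u
          apply intervalIntegral.integral_nonneg (by linarith)
          intro y _
          exact h0 _ _
        · exact (hci _ _).intervalIntegrable _ _
      refine s5.trans (s6.trans (le_of_eq ?_))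
      rw [hG]
      apply intervalIntegral.integral_congr
      intro u _
      change ∫ y in (t - V)..(t + V), h u y = ∫ y in (-V)..V, h u (t + y)
      rw [intervalIntegral.integral_comp_add_left (fun y => h u y)]
      congr 1
    have s7 : v ^ (2 * k) ≤ C0 / ρ ^ 2 * G t :=
      s2.trans (s1.trans (mul_le_mul_of_nonneg_left s3 (by positivity)))
    rw [hcdef, div_le_iff₀ hC0]
    have : C0 / ρ ^ 2 * G t * ρ ^ 2 = G t * C0 := by
      field_simp
    rw [← this]
    exact mul_le_mul_of_nonneg_right s7 (by positivity)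
  have hmark : c * (volume.restrict (Icc (T / 2) (3 * T))).real {t | c ≤ G t} ≤
      (b - a) * (2 * V) * M := by
    refine le_trans ?_ hfub
    rw [intervalIntegral.integral_of_le (by linarith), ← integral_Icc_eq_integral_Ioc]
    apply mul_meas_ge_le_integral_of_nonneg
    · exact Filter.Eventually.of_forall hG0
    · exact hGc.continuousOn.integrableOn_compact isCompact_Icc
  have hmeas : MeasurableSet {t | c ≤ G t} := (isClosed_le continuous_const hGc).measurableSet
  refine (measure_mono hsub).trans ?_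
  have hfin : volume (Icc (T / 2) (3 * T) ∩ {t | c ≤ G t}) ≠ ⊤ := by
    refine ne_top_of_le_ne_top ?_ (measure_mono inter_subset_left)
    rw [Real.volume_Icc]
    exact ENNReal.ofReal_ne_top
  rw [← ENNReal.ofReal_toReal hfin]
  apply ENNReal.ofReal_le_ofReal
  have e9 : (volume.restrict (Icc (T / 2) (3 * T))).real {t | c ≤ G t}
      = (volume (Icc (T / 2) (3 * T) ∩ {t | c ≤ G t})).toReal := by
    rw [Measure.real, Measure.restrict_apply hmeas, inter_comm]
  rw [← e9]
  have e10 : (volume.restrict (Icc (T / 2) (3 * T))).real {t | c ≤ G t} ≤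
      (b - a) * (2 * V) * M / c := by
    rw [le_div_iff₀ hc0, mul_comm]
    exact hmark
  refine e10.trans ?_
  have hba : b - a ≤ (Y + 1) * x := by
    rw [hb, ha]
    nlinarith
  have e11 : (b - a) * (2 * V) * M / c ≤ ((Y + 1) * x) * (2 * V) * M / c := by
    gcongr
  refine e11.trans (le_of_eq ?_)
  rw [hcdef, hV, hρ]
  field_simp
  ring

theorem sMX : Pool.Agent.Zk1.DH.S_MX := by
  intro δ hδ hδ1
  obtain ⟨C, hC, h⟩ := mx_gen δ 2 hδ hδ1 (by norm_num)
  refine ⟨C, hC, ?_⟩
  intro k T x W M v f _ _ hx hxW hWT _ hM hv hf hmom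
  exact h k T x W M v f hx hxW hWT hM hv hf hmom

end Pool.Agent.Zk3.DH
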