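import Pool.Agent.H370R2.MV

set_option autoImplicit false

/-!
The mean value theorem for Dirichlet polynomials without a logarithm:
`∫_{T1}^{T2} |∑_{n ≤ N} b_n n^(-it)|² dt ≤ 60 (T2 - T1 + N) ∑ |b_n|²`.
-/

namespace Pool.Agent.Zk3.DH

open Complex MeasureTheory Set Filter Topology

lemma gauss_norm (W x : ℝ) (hW : 0 < W) :
    ‖∫ t : ℝ, cexp (I * (x : ℂ) * t) * cexp (-((W ^ 2)⁻¹ : ℝ) * (t : ℂ) ^ 2)‖ ≤
      2 * W * Real.exp (-(W * x) ^ 2 / 4) := by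
  have hb : 0 < (((W ^ 2)⁻¹ : ℝ) : ℂ).re := by
    rw [Complex.ofReal_re]; positivity
  rw [fourierIntegral_gaussian hb (x : ℂ), norm_mul, Complex.norm_exp]
  have e1 : ((Real.pi : ℂ) / (((W ^ 2)⁻¹ : ℝ) : ℂ)) = ((Real.pi * W ^ 2 : ℝ) : ℂ) := by
    push_cast
    field_simp
  have e2 : ‖((Real.pi : ℂ) / (((W ^ 2)⁻¹ : ℝ) : ℂ)) ^ (1 / 2 : ℂ)‖ ≤ 2 * W := by
    rw [e1, Complex.norm_cpow_eq_rpow_re_of_pos (by positivity)]
    have : ((1 / 2 : ℂ)).re = 1 / 2 := by norm_num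
    rw [this, ← Real.sqrt_eq_rpow]
    rw [Real.sqrt_le_left (by positivity)]
    have := Real.pi_lt_four
    nlinarith [sq_nonneg W]
  have e3 : (-(x : ℂ) ^ 2 / (4 * (((W ^ 2)⁻¹ : ℝ) : ℂ))).re = -(W * x) ^ 2 / 4 := by
    have : (-(x : ℂ) ^ 2 / (4 * (((W ^ 2)⁻¹ : ℝ) : ℂ))) = ((-(W * x) ^ 2 / 4 : ℝ) : ℂ) := by
      push_cast
      field_simp
    rw [this, Complex.ofReal_re]
  rw [e3]
  exact mul_le_mul_of_nonneg_right e2 (Real.exp_pos _).le

lemma geo_sum (N m : ℕ) :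
    ∑ n ∈ Finset.Icc 1 N, ((4 : ℝ) / 5) ^ (((m : ℤ) - n).natAbs) ≤ 10 := by
  classical
  have hg : ∀ K : ℕ, ∑ j ∈ Finset.range K, ((4 : ℝ) / 5) ^ j ≤ 5 := by
    intro K
    rw [geom_sum_eq (by norm_num)]
    have : (0 : ℝ) ≤ (4 / 5) ^ K := by positivity
    rw [div_le_iff_of_neg (by norm_num)]
    linarith
  have h1 : ∑ n ∈ (Finset.Icc 1 N).filter (fun n => n ≤ m), ((4 : ℝ) / 5) ^ (((m : ℤ) - n).natAbs)
      ≤ 5 := by
    refine le_trans ?_ (hg (m + 1))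
    have : ∑ n ∈ (Finset.Icc 1 N).filter (fun n => n ≤ m), ((4 : ℝ) / 5) ^ (((m : ℤ) - n).natAbs)
        = ∑ j ∈ ((Finset.Icc 1 N).filter (fun n => n ≤ m)).image (fun n => m - n),
          ((4 : ℝ) / 5) ^ j := by
      rw [Finset.sum_image]
      · refine Finset.sum_congr rfl fun n hn => ?_
        have := (Finset.mem_filter.1 hn).2
        congr 1
        omega
      · intro a ha b hb hab
        have h1 := (Finset.mem_filter.1 (Finset.mem_coe.1 ha)).2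
        have h2 := (Finset.mem_filter.1 (Finset.mem_coe.1 hb)).2
        simp only at hab
        omega
    rw [this]
    apply Finset.sum_le_sum_of_subset_of_nonneg
    · intro j hj
      obtain ⟨n, _, rfl⟩ := Finset.mem_image.1 hj
      rw [Finset.mem_range]
      omega
    · intros; positivity
  have h2 : ∑ n ∈ (Finset.Icc 1 N).filter (fun n => ¬ n ≤ m), ((4 : ℝ) / 5) ^ (((m : ℤ) - n).natAbs)
      ≤ 5 := by
    refine le_trans ?_ (hg (N + 1))
    have : ∑ n ∈ (Finset.Icc 1 N).filter (fun n => ¬ n ≤ m), ((4 : ℝ) / 5) ^ (((m : ℤ) - n).natAbs)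
        = ∑ j ∈ ((Finset.Icc 1 N).filter (fun n => ¬ n ≤ m)).image (fun n => n - m),
          ((4 : ℝ) / 5) ^ j := by
      rw [Finset.sum_image]
      · refine Finset.sum_congr rfl fun n hn => ?_
        have := (Finset.mem_filter.1 hn).2
        congr 1
        omega
      · intro a ha b hb hab
        have h1 := (Finset.mem_filter.1 (Finset.mem_coe.1 ha)).2
        have h2 := (Finset.mem_filter.1 (Finset.mem_coe.1 hb)).2
        simp only at hab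
        omega
    rw [this]
    apply Finset.sum_le_sum_of_subset_of_nonneg
    · intro j hj
      obtain ⟨n, hn, rfl⟩ := Finset.mem_image.1 hj
      have := (Finset.mem_Icc.1 (Finset.mem_filter.1 hn).1).2
      rw [Finset.mem_range]
      omega
    · intros; positivity
  rw [← Finset.sum_filter_add_sum_filter_not (Finset.Icc 1 N) (fun n => n ≤ m)]
  linarith

lemma exp_geo (N m n : ℕ) (W : ℝ) (hm : m ∈ Finset.Icc 1 N) (hn : n ∈ Finset.Icc 1 N)
    (hW : (N : ℝ) ≤ W) :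
    Real.exp (-(W * (Real.log n - Real.log m)) ^ 2 / 4) ≤ ((4 : ℝ) / 5) ^ (((m : ℤ) - n).natAbs) := by
  by_cases hmn : m = n
  · subst hmn
    simp
  have hgap := H370.MV.log_gap_abs hm hn hmn
  have hN : (0 : ℝ) < N := by
    have h := Finset.mem_Icc.1 hm
    have h1 : 0 < N := by omega
    exact_mod_cast h1
  have hW0 : 0 < W := lt_of_lt_of_le hN hW
  have h1 : |(m : ℝ) - n| ≤ |W * (Real.log n - Real.log m)| := by
    rw [div_le_iff₀ hN] at hgap
    rw [abs_mul, abs_of_pos hW0]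
    refine hgap.trans ?_
    rw [mul_comm]
    exact mul_le_mul_of_nonneg_right hW (abs_nonneg _)
  set d : ℕ := ((m : ℤ) - n).natAbs with hd
  have hdR : (d : ℝ) = |(m : ℝ) - n| := by
    rw [hd]
    have := Nat.cast_natAbs (α := ℝ) ((m : ℤ) - n)
    rw [this]
    push_cast
    rfl
  have hd1 : 1 ≤ d := by
    rw [hd]
    omega
  have hd1R : (1 : ℝ) ≤ d := by exact_mod_cast hd1
  rw [← hdR] at h1
  have h2 : (d : ℝ) ≤ (W * (Real.log n - Real.log m)) ^ 2 := by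
    rw [← sq_abs]
    nlinarith
  have h3 : -(W * (Real.log n - Real.log m)) ^ 2 / 4 ≤ (d : ℝ) * (-(1 / 4)) := by linarith
  refine (Real.exp_le_exp.2 h3).trans ?_
  rw [mul_comm, Real.exp_mul, Real.rpow_natCast]
  apply pow_le_pow_left₀ (Real.exp_pos _).le
  have h4 : (1 : ℝ) / 4 + 1 ≤ Real.exp (1 / 4) := Real.add_one_le_exp _
  rw [Real.exp_neg, inv_le_comm₀ (Real.exp_pos _) (by norm_num)]
  have : ((4 : ℝ) / 5)⁻¹ = 1 / 4 + 1 := by norm_num
  rw [this]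
  exact h4

theorem mv0 (N : ℕ) (b : ℕ → ℂ) (L : ℝ) (hL : 0 ≤ L) :
    ∫ t in (0 : ℝ)..L, ‖∑ n ∈ Finset.Icc 1 N, b n * (n : ℂ) ^ (-(t : ℂ) * I)‖ ^ 2 ≤
      60 * (L + N) * ∑ n ∈ Finset.Icc 1 N, ‖b n‖ ^ 2 := by
  classical
  rcases Nat.eq_zero_or_pos N with hN | hN
  · subst hN
    simp
  set W : ℝ := L + N with hWdef
  have hNR : (0 : ℝ) < N := by exact_mod_cast hN
  have hW : 0 < W := by linarith
  have hNW : (N : ℝ) ≤ W := by linarith
  set S : ℝ → ℂ := fun t => ∑ n ∈ Finset.Icc 1 N, b n * (n : ℂ) ^ (-(t : ℂ) * I) with hS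
  have hexp : ∀ t : ℝ, ((Real.exp (-((W ^ 2)⁻¹) * t ^ 2) * ‖S t‖ ^ 2 : ℝ) : ℂ) =
      ∑ m ∈ Finset.Icc 1 N, ∑ n ∈ Finset.Icc 1 N, b m * (starRingEnd ℂ) (b n) *
        (cexp (I * ((Real.log n - Real.log m : ℝ) : ℂ) * t) *
          cexp (-((W ^ 2)⁻¹ : ℝ) * (t : ℂ) ^ 2)) := by
    intro t
    have h1 : ∀ z : ℂ, ((‖z‖ ^ 2 : ℝ) : ℂ) = z * (starRingEnd ℂ) z := by
      intro z; rw [Complex.mul_conj']; push_cast; rfl
    rw [Complex.ofReal_mul, h1, hS, map_sum, Finset.sum_mul_sum, Finset.mul_sum]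
    refine Finset.sum_congr rfl fun m hm => ?_
    rw [Finset.mul_sum]
    refine Finset.sum_congr rfl fun n hn => ?_
    rw [Finset.mem_Icc] at hm hn
    have hm0 : (m : ℂ) ≠ 0 := by
      have : m ≠ 0 := by omega
      exact_mod_cast this
    have hn0 : (n : ℂ) ≠ 0 := by
      have : n ≠ 0 := by omega
      exact_mod_cast this
    rw [map_mul, Complex.cpow_def_of_ne_zero hm0, Complex.cpow_def_of_ne_zero hn0,
      ← Complex.exp_conj, ← Complex.natCast_log, ← Complex.natCast_log]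
    simp only [map_mul, map_neg, Complex.conj_ofReal, Complex.conj_I]
    rw [mul_mul_mul_comm, ← Complex.exp_add, mul_left_comm, Complex.ofReal_exp, ← Complex.exp_add,
      ← Complex.exp_add]
    congr 2
    push_cast
    ring
  have hI1 : ∀ m n : ℕ, Integrable (fun t : ℝ =>
      (cexp (I * ((Real.log n - Real.log m : ℝ) : ℂ) * t) *
          cexp (-((W ^ 2)⁻¹ : ℝ) * (t : ℂ) ^ 2))) := by
    intro m n
    have hre : (-(((W ^ 2)⁻¹ : ℝ) : ℂ)).re < 0 := by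
      rw [Complex.neg_re, Complex.ofReal_re]
      have : 0 < (W ^ 2)⁻¹ := by positivity
      linarith
    have := integrable_cexp_quadratic' hre (I * ((Real.log n - Real.log m : ℝ) : ℂ)) 0
    refine this.congr (Filter.Eventually.of_forall fun t => ?_)
    simp only
    rw [← Complex.exp_add]
    congr 1
    ring
  have hI2 : Integrable (fun t : ℝ => Real.exp (-((W ^ 2)⁻¹) * t ^ 2) * ‖S t‖ ^ 2) := by
    have h1 : Integrable (fun t : ℝ => ((Real.exp (-((W ^ 2)⁻¹) * t ^ 2) * ‖S t‖ ^ 2 : ℝ) : ℂ)) := by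
      simp_rw [hexp]
      refine integrable_finsetSum _ fun m _ => integrable_finsetSum _ fun n _ => ?_
      exact (hI1 m n).const_mul _
    have h2 := h1.re
    exact h2.congr (Filter.Eventually.of_forall fun t => Complex.ofReal_re _)
  have hint : ((∫ t : ℝ, Real.exp (-((W ^ 2)⁻¹) * t ^ 2) * ‖S t‖ ^ 2 : ℝ) : ℂ)
      = ∑ m ∈ Finset.Icc 1 N, ∑ n ∈ Finset.Icc 1 N, b m * (starRingEnd ℂ) (b n) *
        ∫ t : ℝ, (cexp (I * ((Real.log n - Real.log m : ℝ) : ℂ) * t) *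
          cexp (-((W ^ 2)⁻¹ : ℝ) * (t : ℂ) ^ 2)) := by
    rw [← integral_complex_ofReal]
    simp_rw [hexp]
    rw [integral_finsetSum _ fun m _ => integrable_finsetSum _ fun n _ => (hI1 m n).const_mul _]
    refine Finset.sum_congr rfl fun m _ => ?_
    rw [integral_finsetSum _ fun n _ => (hI1 m n).const_mul _]
    refine Finset.sum_congr rfl fun n _ => ?_
    rw [integral_const_mul]
  have hle : ∫ t : ℝ, Real.exp (-((W ^ 2)⁻¹) * t ^ 2) * ‖S t‖ ^ 2 ≤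
      20 * W * ∑ n ∈ Finset.Icc 1 N, ‖b n‖ ^ 2 := by
    have h1 : ∫ t : ℝ, Real.exp (-((W ^ 2)⁻¹) * t ^ 2) * ‖S t‖ ^ 2 ≤
        ‖((∫ t : ℝ, Real.exp (-((W ^ 2)⁻¹) * t ^ 2) * ‖S t‖ ^ 2 : ℝ) : ℂ)‖ := by
      rw [Complex.norm_real]
      exact le_abs_self _
    refine h1.trans ?_
    rw [hint]
    have h2 : ∀ m ∈ Finset.Icc 1 N, ∀ n ∈ Finset.Icc 1 N, ‖b m * (starRingEnd ℂ) (b n) *
        ∫ t : ℝ, (cexp (I * ((Real.log n - Real.log m : ℝ) : ℂ) * t) *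
          cexp (-((W ^ 2)⁻¹ : ℝ) * (t : ℂ) ^ 2))‖ ≤
        W * (‖b m‖ ^ 2 * ((4 : ℝ) / 5) ^ (((m : ℤ) - n).natAbs)) +
          W * (‖b n‖ ^ 2 * ((4 : ℝ) / 5) ^ (((n : ℤ) - m).natAbs)) := by
      intro m hm n hn
      rw [norm_mul, norm_mul, RCLike.norm_conj]
      have h3 := (gauss_norm W (Real.log n - Real.log m) hW).trans
        (mul_le_mul_of_nonneg_left (exp_geo N m n W hm hn hNW) (by positivity))
      have h4 := mul_le_mul_of_nonneg_left h3 (by positivity : 0 ≤ ‖b m‖ * ‖b n‖)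
      refine h4.trans ?_
      have h5 : (((n : ℤ) - m).natAbs) = (((m : ℤ) - n).natAbs) := by omega
      rw [h5]
      have h6 : 0 ≤ W * ((4 : ℝ) / 5) ^ (((m : ℤ) - n).natAbs) := by positivity
      nlinarith [mul_nonneg h6 (sq_nonneg (‖b m‖ - ‖b n‖))]
    refine (norm_sum_le _ _).trans ?_
    refine (Finset.sum_le_sum fun m hm => (norm_sum_le _ _).trans
      (Finset.sum_le_sum fun n hn => h2 m hm n hn)).trans ?_
    simp only [Finset.sum_add_distrib]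
    have h7 : ∑ m ∈ Finset.Icc 1 N, ∑ n ∈ Finset.Icc 1 N,
        W * (‖b m‖ ^ 2 * ((4 : ℝ) / 5) ^ (((m : ℤ) - n).natAbs)) ≤
        10 * W * ∑ n ∈ Finset.Icc 1 N, ‖b n‖ ^ 2 := by
      rw [Finset.mul_sum]
      refine Finset.sum_le_sum fun m _ => ?_
      rw [← Finset.mul_sum, ← Finset.mul_sum]
      have := mul_le_mul_of_nonneg_left (geo_sum N m) (by positivity : 0 ≤ W * ‖b m‖ ^ 2)
      nlinarith
    have h8 : ∑ m ∈ Finset.Icc 1 N, ∑ n ∈ Finset.Icc 1 N,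
        W * (‖b n‖ ^ 2 * ((4 : ℝ) / 5) ^ (((n : ℤ) - m).natAbs)) ≤
        10 * W * ∑ n ∈ Finset.Icc 1 N, ‖b n‖ ^ 2 := by
      rw [Finset.sum_comm]
      exact h7
    linarith
  have hcS : Continuous fun t : ℝ => ‖S t‖ ^ 2 := by
    rw [hS]
    refine Continuous.pow (Continuous.norm (continuous_finsetSum _ fun n hn => ?_)) 2
    have hn0 : (n : ℂ) ≠ 0 := by
      have := (Finset.mem_Icc.1 hn).1
      have : n ≠ 0 := by omega
      exact_mod_cast this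
    refine continuous_const.mul ?_
    exact Continuous.const_cpow (by fun_prop) (Or.inl hn0)
  have h9 : ∫ t in (0 : ℝ)..L, ‖S t‖ ^ 2 ≤
      ∫ t in (0 : ℝ)..L, 3 * (Real.exp (-((W ^ 2)⁻¹) * t ^ 2) * ‖S t‖ ^ 2) := by
    apply intervalIntegral.integral_mono_on hL (hcS.intervalIntegrable _ _)
    · exact Continuous.intervalIntegrable (by fun_prop) _ _
    · intro t ht
      have h10 : -1 ≤ -((W ^ 2)⁻¹) * t ^ 2 := by
        have h11 : t ^ 2 ≤ W ^ 2 := by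
          apply pow_le_pow_left₀ ht.1
          linarith [ht.2]
        have h12 : (W ^ 2)⁻¹ * t ^ 2 ≤ (W ^ 2)⁻¹ * W ^ 2 :=
          mul_le_mul_of_nonneg_left h11 (by positivity)
        rw [inv_mul_cancel₀ (by positivity)] at h12
        linarith
      have h13 : 1 ≤ 3 * Real.exp (-((W ^ 2)⁻¹) * t ^ 2) := by
        have h14 := Real.exp_le_exp.2 h10
        have h15 : (1 : ℝ) / 3 ≤ Real.exp (-1) := by
          rw [Real.exp_neg, ← one_div]
          apply one_div_le_one_div_of_le (Real.exp_pos _)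
          exact (Real.exp_one_lt_d9.trans (by norm_num)).le
        linarith
      have h16 : 0 ≤ ‖S t‖ ^ 2 := by positivity
      nlinarith
  have h17 : ∫ t in (0 : ℝ)..L, 3 * (Real.exp (-((W ^ 2)⁻¹) * t ^ 2) * ‖S t‖ ^ 2) ≤
      3 * ∫ t : ℝ, Real.exp (-((W ^ 2)⁻¹) * t ^ 2) * ‖S t‖ ^ 2 := by
    rw [intervalIntegral.integral_const_mul, intervalIntegral.integral_of_le hL]
    apply mul_le_mul_of_nonneg_left _ (by norm_num)
    apply setIntegral_le_integral hI2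
    exact Filter.Eventually.of_forall fun t => by positivity
  calc _ ≤ _ := h9
    _ ≤ _ := h17
    _ ≤ 3 * (20 * W * ∑ n ∈ Finset.Icc 1 N, ‖b n‖ ^ 2) := mul_le_mul_of_nonneg_left hle (by norm_num)
    _ = _ := by ring

/-- The mean value theorem without a logarithm. -/
theorem mv (N : ℕ) (b : ℕ → ℂ) (T1 T2 : ℝ) (h : T1 ≤ T2) :
    ∫ t in T1..T2, ‖∑ n ∈ Finset.Icc 1 N, b n * (n : ℂ) ^ (-(t : ℂ) * I)‖ ^ 2 ≤
      60 * (T2 - T1 + N) * ∑ n ∈ Finset.Icc 1 N, ‖b n‖ ^ 2 := by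
  have h1 := mv0 N (fun n => b n * (n : ℂ) ^ (-(T1 : ℂ) * I)) (T2 - T1) (by linarith)
  have h2 : ∀ n ∈ Finset.Icc 1 N, ‖b n * (n : ℂ) ^ (-(T1 : ℂ) * I)‖ ^ 2 = ‖b n‖ ^ 2 := by
    intro n hn
    have hn0 : 0 < n := (Finset.mem_Icc.1 hn).1
    rw [norm_mul, Complex.norm_natCast_cpow_of_pos hn0]
    simp
  rw [Finset.sum_congr rfl h2] at h1
  refine le_trans (le_of_eq ?_) h1
  have h3 : ∫ t in T1..T2, ‖∑ n ∈ Finset.Icc 1 N, b n * (n : ℂ) ^ (-(t : ℂ) * I)‖ ^ 2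
      = ∫ t in (0 : ℝ)..(T2 - T1), ‖∑ n ∈ Finset.Icc 1 N, b n * (n : ℂ) ^ (-((T1 + t : ℝ) : ℂ) * I)‖ ^ 2 := by
    rw [intervalIntegral.integral_comp_add_left
      (fun t : ℝ => ‖∑ n ∈ Finset.Icc 1 N, b n * (n : ℂ) ^ (-(t : ℂ) * I)‖ ^ 2)]
    congr 1
    · ring
    · ring
  rw [h3]
  apply intervalIntegral.integral_congr
  intro t _
  simp only
  congr 2
  refine Finset.sum_congr rfl fun n hn => ?_
  have hn0 : (n : ℂ) ≠ 0 := by
    have := (Finset.mem_Icc.1 hn).1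
    have : n ≠ 0 := by omega
    exact_mod_cast this
  rw [mul_assoc, ← Complex.cpow_add _ _ hn0]
  congr 2
  push_cast
  ring

end Pool.Agent.Zk3.DH
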