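import Pool.Agent.Zk3.XD.Mom
import Pool.Agent.Zk3.DH.MV

set_option autoImplicit false

/-!
# High moments of short prime polynomials, without a logarithm

`∫_{T1}^{T2} |∑_{p ≤ X} a_p p^(-it)|^(2k) dt ≤ 60 (T2 - T1 + X^k) k! (∑_{p ≤ X} |a_p|²)^k`.
-/

open Complex MeasureTheory

namespace Pool.Agent.Zk3.DH

open Pool.Agent.Zk3.Mom

/-- **High moments of prime polynomials, without a logarithm.** -/
theorem momentLF (a : ℕ → ℂ) (X k : ℕ) (hX : 1 ≤ X) (T1 T2 : ℝ) (hT : T1 ≤ T2) :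
    ∫ t in T1..T2, ‖∑ p ∈ (Finset.Icc 1 X).filter Nat.Prime, a p * (p : ℂ) ^ (-(t : ℂ) * I)‖ ^ (2 * k) ≤
      60 * (T2 - T1 + (X : ℝ) ^ k) *
        ((k.factorial : ℝ) * (∑ p ∈ (Finset.Icc 1 X).filter Nat.Prime, ‖a p‖ ^ 2) ^ k) := by
  have hfz : ∀ n, X < n → fa a X n = 0 := fun n hn => by
    rw [fa_apply, if_neg (by rintro ⟨_, h⟩; omega)]
  have hqz : ∀ n, X < n → fq a X n = 0 := fun n hn => by
    rw [fq_apply, if_neg (by rintro ⟨_, h⟩; omega)]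
  have hmv := mv (X ^ k) (fun n => (fa a X ^ k) n) T1 T2 hT
  have hint : ∀ t : ℝ, ‖∑ n ∈ Finset.Icc 1 (X ^ k), (fa a X ^ k) n * (n : ℂ) ^ (-(t : ℂ) * I)‖ ^ 2 =
      ‖∑ p ∈ (Finset.Icc 1 X).filter Nat.Prime, a p * (p : ℂ) ^ (-(t : ℂ) * I)‖ ^ (2 * k) := by
    intro t
    have h1 := (sum_pow (fa a X) X k hX (fun n : ℕ => (n : ℂ) ^ (-(t : ℂ) * I))
      (fun m n hm hn => by
        push_cast
        rw [Complex.natCast_mul_natCast_cpow])
      (by simp) hfz).2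
    rw [h1, norm_pow, ← pow_mul, mul_comm k 2]
    congr 2
    rw [← sum_prime X (fun p => a p * (p : ℂ) ^ (-(t : ℂ) * I))]
    refine Finset.sum_congr rfl fun n _ => ?_
    rw [fa_apply]; split_ifs <;> simp
  simp_rw [hint] at hmv
  have hsum : ∑ n ∈ Finset.Icc 1 (X ^ k), ‖(fa a X ^ k) n‖ ^ 2 ≤
      (k.factorial : ℝ) * (∑ p ∈ (Finset.Icc 1 X).filter Nat.Prime, ‖a p‖ ^ 2) ^ k := by
    have h2 := (sum_pow (fq a X) X k hX (fun _ => (1 : ℝ)) (fun _ _ _ _ => by norm_num) rfl hqz).2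
    simp only [mul_one] at h2
    have h3 : ∑ n ∈ Finset.Icc 1 X, fq a X n =
        ∑ p ∈ (Finset.Icc 1 X).filter Nat.Prime, ‖a p‖ ^ 2 := by
      rw [← sum_prime X (fun p => ‖a p‖ ^ 2)]
      exact Finset.sum_congr rfl fun n _ => rfl
    rw [← h3, ← h2, Finset.mul_sum]
    exact Finset.sum_le_sum fun n _ => pow_sq a X k n
  refine hmv.trans ?_
  push_cast
  refine mul_le_mul_of_nonneg_left hsum ?_
  have h5 : (1 : ℝ) ≤ (X : ℝ) ^ k := one_le_pow₀ (by exact_mod_cast hX)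
  have : 0 ≤ T2 - T1 := by linarith
  positivity

end Pool.Agent.Zk3.DH
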