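import Pool.Agent.Zk1.DH.Spec
import Pool.Agent.H370R2.NT
import Pool.Agent.Zk3.DH.MX
import Pool.Agent.Zk3.DH.PM

set_option autoImplicit false

/-!
# Moments of Dirichlet polynomials over rough numbers
-/

open Complex MeasureTheory

namespace Pool.Agent.Zk3.DH

open Pool.Agent.Zk3.Mom
open Pool.Agent.Zk1.DH (rough DD)

/-- `n ↦ 1/n` -/
noncomputable def finv : ℕ →* ℝ where
  toFun n := (n : ℝ)⁻¹
  map_one' := by simp
  map_mul' m n := by push_cast; rw [mul_inv]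

lemma finv_apply (n : ℕ) : finv n = (n : ℝ)⁻¹ := rfl

lemma rough_sum_exp (X : ℝ) (B : ℕ) (S : Finset ℕ)
    (hS : ∀ r ∈ S, 1 ≤ r ∧ r ≤ B ∧ ∀ p ∈ r.primeFactors, X < (p : ℝ)) :
    ∑ r ∈ S, (r : ℝ)⁻¹ ≤
      Real.exp (2 * ∑ p ∈ (Finset.Icc 1 B).filter (fun p : ℕ => p.Prime ∧ X < (p : ℝ)), (p : ℝ)⁻¹) := by
  classical
  set s : Finset ℕ := (Finset.Icc 1 B).filter (fun p : ℕ => p.Prime ∧ X < (p : ℝ)) with hs
  have hsp : s.filter Nat.Prime = s := by
    rw [hs, Finset.filter_filter]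
    apply Finset.filter_congr
    intro p _
    tauto
  obtain ⟨h1, h2⟩ := EulerProduct.summable_and_hasSum_factoredNumbers_prod_filter_prime_geometric
    (f := finv) (fun {p} hp => by
      rw [finv_apply, Real.norm_eq_abs, abs_of_nonneg (by positivity)]
      apply inv_lt_one_of_one_lt₀
      exact_mod_cast hp.one_lt) s
  rw [hsp] at h2
  have hsub : ∀ r ∈ S, r ∈ Nat.factoredNumbers s := by
    intro r hr
    obtain ⟨hr1, hr2, hr3⟩ := hS r hr
    refine ⟨by omega, ?_⟩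
    intro p hp
    have hp' : p ∈ r.primeFactors := by
      rw [Nat.primeFactors, List.mem_toFinset]
      exact hp
    have hpp := Nat.prime_of_mem_primeFactors hp'
    rw [hs, Finset.mem_filter, Finset.mem_Icc]
    refine ⟨⟨hpp.one_le, ?_⟩, hpp, hr3 p hp'⟩
    exact (Nat.le_of_dvd (by omega) (Nat.dvd_of_mem_primeFactors hp')).trans hr2
  have h3 : ∑ r ∈ S, (r : ℝ)⁻¹ ≤ ∏ p ∈ s, (1 - finv p)⁻¹ := by
    have h4 : ∑ r ∈ S.attach, finv (⟨r.1, hsub r.1 r.2⟩ : Nat.factoredNumbers s) ≤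
        ∏ p ∈ s, (1 - finv p)⁻¹ := by
      have h5 : ∑ r ∈ S.attach, finv (⟨r.1, hsub r.1 r.2⟩ : Nat.factoredNumbers s) =
          ∑ m ∈ S.attach.image (fun r => (⟨r.1, hsub r.1 r.2⟩ : Nat.factoredNumbers s)),
            finv m := by
        rw [Finset.sum_image]
        intro a _ b _ hab
        simp only [Subtype.mk.injEq] at hab
        exact Subtype.ext hab
      rw [h5]
      apply sum_le_hasSum _ _ h2
      intro m _
      rw [finv_apply]
      positivity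
    refine le_trans (le_of_eq ?_) h4
    rw [← Finset.sum_attach]
    rfl
  refine h3.trans ?_
  rw [Finset.mul_sum, Real.exp_sum]
  apply Finset.prod_le_prod
  · intro p hp
    have hp2 : 2 ≤ p := ((Finset.mem_filter.1 hp).2.1).two_le
    have : finv p ≤ 1 / 2 := by
      rw [finv_apply, one_div]
      apply inv_anti₀ (by norm_num)
      exact_mod_cast hp2
    apply inv_nonneg.2
    linarith
  · intro p hp
    have hp2 : 2 ≤ p := ((Finset.mem_filter.1 hp).2.1).two_le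
    rw [finv_apply]
    set y : ℝ := (p : ℝ)⁻¹ with hy
    have hy0 : 0 < y := by
      rw [hy]
      have : 0 < p := by omega
      positivity
    have hy1 : y ≤ 1 / 2 := by
      rw [hy, one_div]
      apply inv_anti₀ (by norm_num)
      exact_mod_cast hp2
    have h6 : (1 - y)⁻¹ ≤ 2 * y + 1 := by
      rw [inv_le_comm₀ (by linarith) (by linarith), inv_le_iff_one_le_mul₀ (by linarith)]
      nlinarith
    exact h6.trans (Real.add_one_le_exp _)

lemma prime_sum_le (X : ℝ) (hX : 1 < X) (B : ℕ) (hB : 1 ≤ B) :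
    ∑ p ∈ (Finset.Icc 1 B).filter (fun p : ℕ => p.Prime ∧ X < (p : ℝ)), (p : ℝ)⁻¹ ≤
      (Real.log B + 6) / Real.log X := by
  have hl : 0 < Real.log X := Real.log_pos hX
  rw [le_div_iff₀ hl, Finset.sum_mul]
  have hm := H370.nt_mertens_upper B hB
  refine le_trans ?_ hm
  calc ∑ p ∈ (Finset.Icc 1 B).filter (fun p : ℕ => p.Prime ∧ X < (p : ℝ)), (p : ℝ)⁻¹ * Real.log X
      ≤ ∑ p ∈ (Finset.Icc 1 B).filter (fun p : ℕ => p.Prime ∧ X < (p : ℝ)),
        ArithmeticFunction.vonMangoldt p / p := by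
        apply Finset.sum_le_sum
        intro p hp
        obtain ⟨_, hpp, hXp⟩ := Finset.mem_filter.1 hp
        rw [ArithmeticFunction.vonMangoldt_apply_prime hpp, div_eq_mul_inv, mul_comm]
        apply mul_le_mul_of_nonneg_right _ (by positivity)
        exact Real.log_le_log (by linarith) hXp.le
    _ ≤ _ := by
        apply Finset.sum_le_sum_of_subset_of_nonneg (Finset.filter_subset _ _)
        intro d _ _
        exact div_nonneg ArithmeticFunction.vonMangoldt_nonneg (Nat.cast_nonneg _)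

/-- The sum of the reciprocals of rough numbers is bounded. -/
lemma rough_sum (a0 T : ℝ) (ha0 : 0 < a0) (hT : Real.exp 1 ≤ T) (B : ℕ) (hB : (B : ℝ) ≤ T)
    (S : Finset ℕ) (hS : ∀ r ∈ S, 1 ≤ r ∧ r ≤ B ∧ ∀ p ∈ r.primeFactors, T ^ a0 < (p : ℝ)) :
    ∑ r ∈ S, (r : ℝ)⁻¹ ≤ Real.exp (14 / a0) := by
  have hT1 : 1 < T := lt_of_lt_of_le (by
    have := Real.add_one_lt_exp (x := 1) one_ne_zero
    linarith) hT
  have hlT : 1 ≤ Real.log T := by
    rw [Real.le_log_iff_exp_le (by linarith)]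
    exact hT
  rcases Nat.eq_zero_or_pos B with hB0 | hB1
  · have : S = ∅ := by
      rw [Finset.eq_empty_iff_forall_notMem]
      intro r hr
      obtain ⟨h1, h2, _⟩ := hS r hr
      omega
    rw [this, Finset.sum_empty]
    positivity
  refine (rough_sum_exp (T ^ a0) B S hS).trans ?_
  apply Real.exp_le_exp.2
  have h1 := prime_sum_le (T ^ a0) (Real.one_lt_rpow hT1 ha0) B hB1
  rw [Real.log_rpow (by linarith)] at h1
  have hBR : (0 : ℝ) < B := by exact_mod_cast hB1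
  have h2 : Real.log B ≤ Real.log T := Real.log_le_log hBR hB
  have h3 : (Real.log B + 6) / (a0 * Real.log T) ≤ 7 / a0 := by
    rw [div_le_div_iff₀ (by positivity) ha0]
    have : (Real.log B + 6) ≤ 7 * Real.log T := by linarith
    nlinarith
  have h4 : 14 / a0 = 2 * (7 / a0) := by ring
  rw [h4]
  linarith

/-- The number of divisors of a rough number. -/
lemma card_div_le (a0 T : ℝ) (ha0 : 0 < a0) (hT : 1 < T) (n : ℕ) (hn : n ≠ 0) (hnT : (n : ℝ) ≤ T)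
    (hr : ∀ p ∈ n.primeFactors, T ^ a0 < (p : ℝ)) :
    (n.divisors.card : ℝ) ≤ (2 : ℝ) ^ (1 / a0) := by
  classical
  set E : ℕ := ∑ p ∈ n.primeFactors, n.factorization p with hE
  have h1 : (n.divisors.card : ℝ) ≤ 2 ^ E := by
    have : n.divisors.card ≤ 2 ^ E := by
      rw [Nat.card_divisors hn, hE, ← Finset.prod_pow_eq_pow_sum]
      apply Finset.prod_le_prod'
      intro p _
      exact Nat.lt_two_pow_self
    exact_mod_cast this
  have h2 : (T ^ a0) ^ E ≤ T := by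
    refine le_trans ?_ hnT
    rw [hE, ← Finset.prod_pow_eq_pow_sum]
    have h3 : (n : ℝ) = ∏ p ∈ n.primeFactors, (p : ℝ) ^ (n.factorization p) := by
      conv_lhs => rw [← Nat.prod_factorization_pow_eq_self hn]
      rw [Finsupp.prod, Nat.support_factorization]
      push_cast
      rfl
    rw [h3]
    apply Finset.prod_le_prod
    · intro p _
      positivity
    · intro p hp
      apply pow_le_pow_left₀ (by positivity)
      exact (hr p hp).le
  have hlT : 0 < Real.log T := Real.log_pos hT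
  have h4 : (E : ℝ) ≤ 1 / a0 := by
    rw [← Real.rpow_natCast, ← Real.rpow_mul (by linarith)] at h2
    nth_rw 2 [← Real.rpow_one T] at h2
    have h5 := (Real.rpow_le_rpow_left_iff hT).1 h2
    rw [le_div_iff₀ ha0]
    linarith
  refine h1.trans ?_
  rw [← Real.rpow_natCast]
  exact Real.rpow_le_rpow_of_exponent_le (by norm_num) h4

/-- the arithmetic function supported on `S` -/
noncomputable def ga (c : ℕ → ℂ) (S : Finset ℕ) (h0 : 0 ∉ S) : ArithmeticFunction ℂ :=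
  ⟨fun n => if n ∈ S then c n else 0, by simp [h0]⟩

noncomputable def gq (c : ℕ → ℂ) (S : Finset ℕ) (h0 : 0 ∉ S) : ArithmeticFunction ℝ :=
  ⟨fun n => if n ∈ S then ‖c n‖ ^ 2 else 0, by simp [h0]⟩

lemma ga_apply (c : ℕ → ℂ) (S : Finset ℕ) (h0 : 0 ∉ S) (n : ℕ) :
    ga c S h0 n = if n ∈ S then c n else 0 := rfl
lemma gq_apply (c : ℕ → ℂ) (S : Finset ℕ) (h0 : 0 ∉ S) (n : ℕ) :
    gq c S h0 n = if n ∈ S then ‖c n‖ ^ 2 else 0 := rfl

lemma gq_eq (c : ℕ → ℂ) (S : Finset ℕ) (h0 : 0 ∉ S) (n : ℕ) :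
    gq c S h0 n = ‖ga c S h0 n‖ ^ 2 := by
  rw [gq_apply, ga_apply]; split_ifs <;> simp

lemma gq_nonneg (c : ℕ → ℂ) (S : Finset ℕ) (h0 : 0 ∉ S) (n : ℕ) : 0 ≤ gq c S h0 n := by
  rw [gq_eq]; positivity

lemma gqpow_nonneg (c : ℕ → ℂ) (S : Finset ℕ) (h0 : 0 ∉ S) (k n : ℕ) :
    0 ≤ (gq c S h0 ^ k) n := by
  induction k generalizing n with
  | zero =>
    rw [pow_zero, ArithmeticFunction.one_apply]; split_ifs <;> norm_num
  | succ k ih =>
    rw [pow_succ', ArithmeticFunction.mul_apply]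
    exact Finset.sum_nonneg fun x _ => mul_nonneg (gq_nonneg _ _ _ _) (ih _)

lemma gsupp (c : ℕ → ℂ) (S : Finset ℕ) (h0 : 0 ∉ S) (X : ℝ) (A : ℕ)
    (hS : ∀ r ∈ S, r ≤ A ∧ ∀ p ∈ r.primeFactors, X < (p : ℝ)) (k n : ℕ)
    (h : (ga c S h0 ^ k) n ≠ 0) :
    n ≠ 0 ∧ n ≤ A ^ k ∧ ∀ p ∈ n.primeFactors, X < (p : ℝ) := by
  induction k generalizing n with
  | zero =>
    rw [pow_zero, ArithmeticFunction.one_apply] at h
    have : n = 1 := by
      by_contra h1; rw [if_neg h1] at h; exact h rfl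
    rw [this]; simp
  | succ j ih =>
    rw [pow_succ', ArithmeticFunction.mul_apply] at h
    obtain ⟨x, hx, hx0⟩ := Finset.exists_ne_zero_of_sum_ne_zero h
    have h1 : ga c S h0 x.1 ≠ 0 := left_ne_zero_of_mul hx0
    have h2 : (ga c S h0 ^ j) x.2 ≠ 0 := right_ne_zero_of_mul hx0
    have hp : x.1 ∈ S := by
      by_contra hp; rw [ga_apply, if_neg hp] at h1; exact h1 rfl
    have hm := Nat.mem_divisorsAntidiagonal.1 hx
    have hx1 : x.1 ≠ 0 := by intro h0; rw [h0, zero_mul] at hm; exact hm.2 hm.1.symm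
    obtain ⟨h3, h4, h5⟩ := ih _ h2
    refine ⟨hm.2, ?_, ?_⟩
    · rw [← hm.1, pow_succ']
      exact Nat.mul_le_mul (hS _ hp).1 h4
    · intro p hpn
      rw [← hm.1, Nat.primeFactors_mul hx1 h3, Finset.mem_union] at hpn
      rcases hpn with hpn | hpn
      · exact (hS _ hp).2 p hpn
      · exact h5 p hpn

lemma gpow_sq (c : ℕ → ℂ) (S : Finset ℕ) (h0 : 0 ∉ S) (X D : ℝ) (A K : ℕ) (hD : 1 ≤ D)
    (hA : 1 ≤ A) (hS : ∀ r ∈ S, r ≤ A ∧ ∀ p ∈ r.primeFactors, X < (p : ℝ))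
    (hdiv : ∀ n : ℕ, n ≠ 0 → n ≤ A ^ K → (∀ p ∈ n.primeFactors, X < (p : ℝ)) →
      (n.divisors.card : ℝ) ≤ D) (k : ℕ) (hk : k ≤ K) (n : ℕ) :
    ‖(ga c S h0 ^ k) n‖ ^ 2 ≤ D ^ k * (gq c S h0 ^ k) n := by
  induction k generalizing n with
  | zero =>
    rw [pow_zero, pow_zero, pow_zero, ArithmeticFunction.one_apply, ArithmeticFunction.one_apply]
    split_ifs <;> simp
  | succ j ih =>
    have hrhs : 0 ≤ D ^ (j + 1) * (gq c S h0 ^ (j + 1)) n :=
      mul_nonneg (by positivity) (gqpow_nonneg _ _ _ _ _)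
    by_cases hz : (ga c S h0 ^ (j + 1)) n = 0
    · rw [hz]; simpa using hrhs
    obtain ⟨s1, s2, s3⟩ := gsupp c S h0 X A hS (j + 1) n hz
    have hcard := hdiv n s1 (s2.trans (Nat.pow_le_pow_right hA hk)) s3
    have hcs := sq_sum_le_card_mul_sum_sq (s := n.divisorsAntidiagonal)
      (f := fun x => ‖ga c S h0 x.1 * (ga c S h0 ^ j) x.2‖)
    have hn1 : ‖(ga c S h0 ^ (j + 1)) n‖ ≤
        ∑ x ∈ n.divisorsAntidiagonal, ‖ga c S h0 x.1 * (ga c S h0 ^ j) x.2‖ := by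
      rw [pow_succ', ArithmeticFunction.mul_apply]; exact norm_sum_le _ _
    have hsum : ∑ x ∈ n.divisorsAntidiagonal, ‖ga c S h0 x.1 * (ga c S h0 ^ j) x.2‖ ^ 2 ≤
        D ^ j * (gq c S h0 ^ (j + 1)) n := by
      rw [pow_succ' (gq c S h0), ArithmeticFunction.mul_apply, Finset.mul_sum]
      apply Finset.sum_le_sum
      intro x _
      rw [norm_mul, mul_pow, ← gq_eq]
      calc gq c S h0 x.1 * ‖(ga c S h0 ^ j) x.2‖ ^ 2
          ≤ gq c S h0 x.1 * (D ^ j * (gq c S h0 ^ j) x.2) :=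
            mul_le_mul_of_nonneg_left (ih (by omega) x.2) (gq_nonneg _ _ _ _)
        _ = _ := by ring
    have hsum0 : 0 ≤ ∑ x ∈ n.divisorsAntidiagonal, ‖ga c S h0 x.1 * (ga c S h0 ^ j) x.2‖ ^ 2 :=
      Finset.sum_nonneg fun x _ => sq_nonneg _
    have hc2 : (n.divisorsAntidiagonal.card : ℝ) ≤ D := by
      rw [← Nat.map_div_right_divisors] at *
      rw [Finset.card_map]
      exact hcard
    calc _ ≤ (∑ x ∈ n.divisorsAntidiagonal, ‖ga c S h0 x.1 * (ga c S h0 ^ j) x.2‖) ^ 2 :=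
          pow_le_pow_left₀ (norm_nonneg _) hn1 2
      _ ≤ _ := hcs
      _ ≤ D * (D ^ j * (gq c S h0 ^ (j + 1)) n) :=
        mul_le_mul hc2 hsum hsum0 (by linarith)
      _ = _ := by ring

lemma gsum {M : Type*} [AddCommMonoid M] (A : ℕ) (S : Finset ℕ) (g : ℕ → M)
    (hS : ∀ r ∈ S, 1 ≤ r ∧ r ≤ A) :
    ∑ n ∈ Finset.Icc 1 A, (if n ∈ S then g n else 0) = ∑ r ∈ S, g r := by
  classical
  rw [← Finset.sum_filter]
  apply Finset.sum_congr _ fun _ _ => rfl
  ext n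
  rw [Finset.mem_filter, Finset.mem_Icc]
  constructor
  · exact fun h => h.2
  · exact fun h => ⟨hS n h, h⟩

/-- Moments of Dirichlet polynomials over rough numbers. -/
theorem rough_moment (c : ℕ → ℂ) (S : Finset ℕ) (X D : ℝ) (A k : ℕ) (hD : 1 ≤ D) (hA : 1 ≤ A)
    (hS : ∀ r ∈ S, 1 ≤ r ∧ r ≤ A ∧ ∀ p ∈ r.primeFactors, X < (p : ℝ))
    (hdiv : ∀ n : ℕ, n ≠ 0 → n ≤ A ^ k → (∀ p ∈ n.primeFactors, X < (p : ℝ)) →
      (n.divisors.card : ℝ) ≤ D) (T1 T2 : ℝ) (hT : T1 ≤ T2) :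
    ∫ t in T1..T2, ‖∑ r ∈ S, c r * (r : ℂ) ^ (-(t : ℂ) * I)‖ ^ (2 * k) ≤
      60 * (T2 - T1 + (A : ℝ) ^ k) * (D ^ k * (∑ r ∈ S, ‖c r‖ ^ 2) ^ k) := by
  classical
  have h0 : 0 ∉ S := fun h => by have := (hS 0 h).1; omega
  have hfz : ∀ n, A < n → ga c S h0 n = 0 := fun n hn => by
    rw [ga_apply, if_neg (fun h => by have := (hS n h).2.1; omega)]
  have hqz : ∀ n, A < n → gq c S h0 n = 0 := fun n hn => by
    rw [gq_apply, if_neg (fun h => by have := (hS n h).2.1; omega)]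
  have hmv := mv (A ^ k) (fun n => (ga c S h0 ^ k) n) T1 T2 hT
  have hint : ∀ t : ℝ, ‖∑ n ∈ Finset.Icc 1 (A ^ k), (ga c S h0 ^ k) n * (n : ℂ) ^ (-(t : ℂ) * I)‖ ^ 2 =
      ‖∑ r ∈ S, c r * (r : ℂ) ^ (-(t : ℂ) * I)‖ ^ (2 * k) := by
    intro t
    have h1 := (sum_pow (ga c S h0) A k hA (fun n : ℕ => (n : ℂ) ^ (-(t : ℂ) * I))
      (fun m n hm hn => by
        push_cast
        rw [Complex.natCast_mul_natCast_cpow])
      (by simp) hfz).2
    rw [h1, norm_pow, ← pow_mul, mul_comm k 2]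
    congr 2
    rw [← gsum A S (fun p => c p * (p : ℂ) ^ (-(t : ℂ) * I)) (fun r hr => ⟨(hS r hr).1, (hS r hr).2.1⟩)]
    refine Finset.sum_congr rfl fun n _ => ?_
    rw [ga_apply]; split_ifs <;> simp
  simp_rw [hint] at hmv
  have hsum : ∑ n ∈ Finset.Icc 1 (A ^ k), ‖(ga c S h0 ^ k) n‖ ^ 2 ≤
      D ^ k * (∑ r ∈ S, ‖c r‖ ^ 2) ^ k := by
    have h2 := (sum_pow (gq c S h0) A k hA (fun _ => (1 : ℝ)) (fun _ _ _ _ => by norm_num) rfl hqz).2
    simp only [mul_one] at h2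
    have h3 : ∑ n ∈ Finset.Icc 1 A, gq c S h0 n = ∑ r ∈ S, ‖c r‖ ^ 2 := by
      rw [← gsum A S (fun p => ‖c p‖ ^ 2) (fun r hr => ⟨(hS r hr).1, (hS r hr).2.1⟩)]
      exact Finset.sum_congr rfl fun n _ => rfl
    rw [← h3, ← h2, Finset.mul_sum]
    exact Finset.sum_le_sum fun n _ => gpow_sq c S h0 X D A k hD hA
      (fun r hr => (hS r hr).2) hdiv k le_rfl n
  refine hmv.trans ?_
  push_cast
  refine mul_le_mul_of_nonneg_left hsum ?_
  have : 0 ≤ T2 - T1 := by linarith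
  positivity

end Pool.Agent.Zk3.DH
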